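import Pool.Agent.MP_6b3e96_gt.H17.Surf

/-!
The frame along horizontal lines.
-/

open scoped ContDiff Topology RealInnerProductSpace Real
open Set Filter Metric Complex

noncomputable section

namespace Pool.Agent.MP_6b3e96_gt.H17

open Pool.Agent.MP_6b3e96_gt.H77

/-- The domain in the plane of the square. -/
def Dw : Set ℂ := box (-2) 2 ∩ {w | 0 < w.re ∨ 0 < w.im}
/-- The conformal factor. -/
def UU (κ : ℝ) (om : ℂ → ℝ) (w : ℂ) : ℝ := om w + Real.log √κ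
/-- The immersion in curvature line coordinates. -/
abbrev SW (κ : ℝ) (om : ℂ → ℝ) (g ν : ℂ → E4) : Prop :=
  Surf Dw (UU κ om) (fun _ => (√κ : ℝ)) g ν

theorem mem_Sq {w : ℂ} : w ∈ Sq ↔ (0 ≤ w.re ∧ w.re ≤ 1) ∧ 0 ≤ w.im ∧ w.im ≤ 1 := Iff.rfl

theorem mem_box {a b : ℝ} {w : ℂ} :
    w ∈ box a b ↔ (a < w.re ∧ w.re < b) ∧ a < w.im ∧ w.im < b := Iff.rfl

theorem isOpen_box (a b : ℝ) : IsOpen (box a b) := isOpen_Ioo.reProdIm isOpen_Ioo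

theorem isOpen_Dw : IsOpen Dw :=
  (isOpen_box _ _).inter
    ((isOpen_lt continuous_const continuous_re).union (isOpen_lt continuous_const continuous_im))

theorem Dw_sub : Dw ⊆ box (-2) 2 \ {0} := by
  rintro w ⟨h1, h2⟩
  refine ⟨h1, ?_⟩
  rintro rfl
  simp at h2

theorem mem_Dw {w : ℂ} (hw : w ∈ Sq) (h0 : w ≠ 0) : w ∈ Dw := by
  obtain ⟨⟨h1, h2⟩, h3, h4⟩ := mem_Sq.1 hw
  refine ⟨mem_box.2 ⟨⟨by linarith, by linarith⟩, by linarith, by linarith⟩, ?_⟩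
  by_contra h
  simp only [mem_ofPred_eq, not_or, not_lt] at h
  exact h0 (Complex.ext (le_antisymm h.1 h1) (le_antisymm h.2 h3))

theorem mk_mem {s t : ℝ} (hs : s ∈ Icc (0 : ℝ) 1) (ht : t ∈ Icc (0 : ℝ) 1) : (⟨s, t⟩ : ℂ) ∈ Sq :=
  ⟨hs, ht⟩

theorem ne_re {s t : ℝ} (h : 0 < s) : (⟨s, t⟩ : ℂ) ≠ 0 := fun e => h.ne' (congrArg re e)

theorem ne_im {s t : ℝ} (h : 0 < t) : (⟨s, t⟩ : ℂ) ≠ 0 := fun e => h.ne' (congrArg im e)

theorem sr_eq (i : Fin 4) (w : ℂ) : sr i w = La (![1, -1, -1, 1] i) w + ![0, 0, 2, 2 * I] i := by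
  fin_cases i <;> apply Complex.ext <;> simp [sr] <;> ring

theorem swp_eq (w : ℂ) : swp w = La I w + 0 := by
  apply Complex.ext <;> simp [swp]

theorem hasDerivAt_line {E : Type} [NormedAddCommGroup E] [NormedSpace ℝ E] {F : ℂ → E} {s t : ℝ}
    (h : DifferentiableAt ℝ F ⟨s, t⟩) :
    HasDerivAt (fun s : ℝ => F ⟨s, t⟩) (fderiv ℝ F ⟨s, t⟩ 1) s := by
  have h1 : HasDerivAt (fun s : ℝ => (⟨s, t⟩ : ℂ)) 1 s := by
    have : (fun s : ℝ => (⟨s, t⟩ : ℂ)) = fun s : ℝ => (s : ℂ) + t * I := by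
      funext s; apply Complex.ext <;> simp
    rw [this]
    exact (hasDerivAt_id s).ofReal_comp.add_const _
  exact h.hasFDerivAt.comp_hasDerivAt s h1

variable {κ : ℝ} {om u : ℂ → ℝ} {g ν : ℂ → E4}

theorem exp_UU (O : Om κ om u) (w : ℂ) : Real.exp (UU κ om w) = √κ * Real.exp (om w) := by
  rw [UU, Real.exp_add, Real.exp_log (Real.sqrt_pos.2 O.pos), mul_comm]

theorem exp_neg_UU (O : Om κ om u) (w : ℂ) :
    Real.exp (-UU κ om w) * √κ = Real.exp (-om w) := by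
  have := (Real.sqrt_pos.2 O.pos).ne'
  rw [Real.exp_neg, exp_UU O, Real.exp_neg]
  field_simp

theorem fderiv_UU (w : ℂ) : fderiv ℝ (UU κ om) w = fderiv ℝ om w := fderiv_add_const _

theorem d2_zero (O : Om κ om u) {s t : ℝ} (hw : (⟨s, t⟩ : ℂ) ∈ Dw) (ht : t = 0 ∨ t = 1) :
    d2 om ⟨s, t⟩ = 0 := by
  have hd := (diffAt ((isOpen_box _ _).sdiff isClosed_singleton) O.sm (Dw_sub hw)).hasFDerivAt
  obtain ⟨i, b, h1, h2⟩ : ∃ (i : Fin 4) (b : ℂ), (∀ w, sr i w = La 1 w + b) ∧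
      sr i ⟨s, t⟩ = ⟨s, t⟩ := by
    rcases ht with rfl | rfl
    · exact ⟨0, _, sr_eq 0, by simp [sr]⟩
    · exact ⟨3, _, sr_eq 3, by simp [sr]; norm_num⟩
  have h3 : HasFDerivAt (sr i) (La 1) ⟨s, t⟩ := by
    rw [funext h1]; exact (La 1).hasFDerivAt.add_const b
  have h4 := (h2.symm ▸ hd : HasFDerivAt om (fderiv ℝ om ⟨s, t⟩) (sr i ⟨s, t⟩)).comp _ h3
  rw [show om ∘ sr i = om from funext (O.sy i)] at h4
  have h5 := DFunLike.congr_fun (h4.unique hd) I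
  simp only [ContinuousLinearMap.comp_apply, La_apply, conj_I, one_mul, map_neg] at h5
  rw [d2]
  linarith

theorem sw_swap (O : Om κ om u) (S : SW κ om g ν) :
    SW κ om (fun w => g (swp w)) (fun w => (-1 : ℝ) • ν (swp w)) :=
  surf_anti S (LinearIsometryEquiv.refl ℝ E4) norm_I (-1) (by simp) isOpen_Dw subset_rfl swp_eq
    (fun _ hw => ⟨⟨hw.1.2, hw.1.1⟩, hw.2.symm⟩) (fun w _ => by rw [UU, UU, O.sw])
    (fun _ _ => by simp)

theorem T_swap (O : Om κ om u) (S : SW κ om g ν) {w : ℂ} (hw : w ∈ Dw) (v : ℂ) :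
    T (UU κ om) (fun w => g (swp w)) v w = T (UU κ om) g (swp v) (swp w) := by
  have h1 : HasFDerivAt swp (La I) w := by
    rw [funext swp_eq]; exact (La I).hasFDerivAt.add_const 0
  have h2 := ((diffAt S.opn S.sf (z := swp w) ⟨⟨hw.1.2, hw.1.1⟩, hw.2.symm⟩).hasFDerivAt.comp w
    h1).fderiv
  rw [T, T, UU, UU, O.sw, swp_eq v, add_zero]
  exact congrArg _ (DFunLike.congr_fun h2 v)

theorem swp_one : swp 1 = I := rfl
theorem swp_I : swp I = 1 := rfl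
theorem swp_mk (s t : ℝ) : swp ⟨s, t⟩ = ⟨t, s⟩ := rfl

section

variable (hF : FrameStmt) (O : Om κ om u) (S : SW κ om g ν) {s t : ℝ}
include O S

theorem dg (hw : (⟨s, t⟩ : ℂ) ∈ Dw) : HasDerivAt (fun s : ℝ => g ⟨s, t⟩)
    ((√κ * Real.exp (om ⟨s, t⟩)) • T (UU κ om) g 1 ⟨s, t⟩) s := by
  rw [← exp_UU O, ← df_eq]
  exact hasDerivAt_line (diffAt S.opn S.sf hw)

theorem dn (hw : (⟨s, t⟩ : ℂ) ∈ Dw) : HasDerivAt (fun s : ℝ => ν ⟨s, t⟩)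
    (-Real.exp (-om ⟨s, t⟩) • T (UU κ om) g 1 ⟨s, t⟩) s := by
  refine (hasDerivAt_line (diffAt S.opn S.sn hw)).congr_deriv ?_
  rw [S.wei _ hw, mul_one, conj_ofReal, ← mul_one (√κ : ℂ), ← real_smul, map_smul, T, smul_smul,
    smul_smul, ← exp_neg_UU O, show -2 * UU κ om ⟨s, t⟩ = -UU κ om ⟨s, t⟩ + -UU κ om ⟨s, t⟩ by ring,
    Real.exp_add]
  congr 1
  ring

include hF

theorem dT1 (hw : (⟨s, t⟩ : ℂ) ∈ Dw) : HasDerivAt (fun s : ℝ => T (UU κ om) g 1 ⟨s, t⟩)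
    (-d2 om ⟨s, t⟩ • T (UU κ om) g I ⟨s, t⟩ + Real.exp (-om ⟨s, t⟩) • ν ⟨s, t⟩ -
      (√κ * Real.exp (om ⟨s, t⟩)) • g ⟨s, t⟩) s := by
  refine (hasDerivAt_line (diff_T S hw 1)).congr_deriv ((hF _ _ _ _ _ S _ hw 1 1).1.trans ?_)
  simp [fderiv_UU, exp_UU O, exp_neg_UU O, T, d2]

omit O in
theorem dT2 (hw : (⟨s, t⟩ : ℂ) ∈ Dw) : HasDerivAt (fun s : ℝ => T (UU κ om) g I ⟨s, t⟩)
    (d2 om ⟨s, t⟩ • T (UU κ om) g 1 ⟨s, t⟩) s := by
  refine (hasDerivAt_line (diff_T S hw I)).congr_deriv ((hF _ _ _ _ _ S _ hw I 1).1.trans ?_)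
  simp [fderiv_UU, T, d2, Complex.inner]

theorem T2_const (hs : s ∈ Icc (0 : ℝ) 1) (ht : t = 0 ∨ t = 1) (h0 : (⟨s, t⟩ : ℂ) ≠ 0) :
    T (UU κ om) g I ⟨s, t⟩ = T (UU κ om) g I ⟨1, t⟩ := by
  have hd : ∀ r ∈ Icc s 1, HasDerivAt (fun s : ℝ => T (UU κ om) g I ⟨s, t⟩) 0 r := by
    intro r hr
    have hw : (⟨r, t⟩ : ℂ) ∈ Dw := by
      refine mem_Dw (mk_mem ⟨hs.1.trans hr.1, hr.2⟩ (by rcases ht with rfl | rfl <;> simp)) ?_
      intro e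
      have e1 : r = 0 := congrArg re e
      have e2 : t = 0 := congrArg im e
      exact h0 (Complex.ext (le_antisymm (hr.1.trans e1.le) hs.1) e2)
    simpa [d2_zero O hw ht] using dT2 hF S hw
  exact (constant_of_has_deriv_right_zero (fun r hr => (hd r hr).continuousAt.continuousWithinAt)
    (fun r hr => (hd r (Ico_subset_Icc_self hr)).hasDerivWithinAt) 1
    (right_mem_Icc.2 hs.2)).symm

theorem sys_line (ht : t ∈ Ioc (0 : ℝ) 1) {m : E4} (hm : ‖m‖ = 1) {c₀ c₁ : ℝ}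
    (hc : ∀ s ∈ Ioo (0 : ℝ) 1, Real.exp (-om ⟨s, t⟩) ≤ c₀ + c₁ * s) :
    Sys (fun s => ⟪T (UU κ om) g 1 ⟨s, t⟩, m⟫) (fun s => ⟪T (UU κ om) g I ⟨s, t⟩, m⟫)
      (fun s => ⟪ν ⟨s, t⟩, m⟫) (fun s => ⟪g ⟨s, t⟩, m⟫) (fun s => d2 om ⟨s, t⟩)
      (fun s => -Real.exp (-om ⟨s, t⟩)) (fun s => √κ * Real.exp (om ⟨s, t⟩))
      (fun s => Real.arctan (s / t) / 2 + 0.05 * s + 0.02 * √s) (fun s => c₀ * s + c₁ * s ^ 2 / 2)
      (fun s => 0.4 * √s) (fun s => t / (2 * (s ^ 2 + t ^ 2)) + 0.05 + 0.01 / √s)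
      (fun s => c₀ + c₁ * s) (fun s => 0.2 / √s) := by
  have hq : ∀ s ∈ Icc (0 : ℝ) 1, (⟨s, t⟩ : ℂ) ∈ Sq := fun s hs => mk_mem hs ⟨ht.1.le, ht.2⟩
  have hw : ∀ s ∈ Icc (0 : ℝ) 1, (⟨s, t⟩ : ℂ) ∈ Dw := fun s hs => mem_Dw (hq s hs) (ne_im ht.1)
  have k : ∀ {F : ℝ → E4} {F' : E4} {s : ℝ}, HasDerivAt F F' s →
      HasDerivAt (fun s => ⟪F s, m⟫) ⟪F', m⟫ s := fun h => by
    simpa using h.inner ℝ (hasDerivAt_const _ m)
  have o := fun s (hs : s ∈ Ioo (0 : ℝ) 1) => hw s (Ioo_subset_Icc_self hs)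
  have hn : ∀ s ∈ Ioo (0 : ℝ) 1, s ≤ ‖(⟨s, t⟩ : ℂ)‖ := fun s _ => re_le_norm ⟨s, t⟩
  have t0 := ht.1
  refine ⟨fun s hs => (k (dT1 hF O S (hw s hs))).continuousAt.continuousWithinAt,
    fun s hs => (k (dT2 hF S (hw s hs))).continuousAt.continuousWithinAt,
    fun s hs => (k (dn O S (hw s hs))).continuousAt.continuousWithinAt,
    fun s hs => (k (dg O S (hw s hs))).continuousAt.continuousWithinAt,
    (by fun_prop), (by fun_prop), (by fun_prop), fun s hs => ?_,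
    fun s hs => (k (dT1 hF O S (o s hs))).congr_deriv ?_,
    fun s hs => (k (dT2 hF S (o s hs))).congr_deriv (real_inner_smul_left _ _ _),
    fun s hs => (k (dn O S (o s hs))).congr_deriv (real_inner_smul_left _ _ _),
    fun s hs => (k (dg O S (o s hs))).congr_deriv (real_inner_smul_left _ _ _),
    fun s hs => ?_, fun s hs => ?_, fun s hs => ?_, fun s hs => ?_, fun s hs => ?_,
    fun s hs => ?_⟩
  · simpa [norm_T S (o s hs), hm] using abs_real_inner_le_norm (T (UU κ om) g 1 ⟨s, t⟩) m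
  · simp only [inner_sub_left, inner_add_left, real_inner_smul_left]
    ring
  · refine ((((((hasDerivAt_id s).div_const t).arctan).div_const 2).add
      ((hasDerivAt_id s).const_mul 0.05)).add
      ((Real.hasDerivAt_sqrt hs.1.ne').const_mul 0.02)).congr_deriv ?_
    have := (Real.sqrt_pos.2 hs.1).ne'
    simp only [id]
    field_simp
    ring
  · refine (((hasDerivAt_id s).const_mul c₀).add
      ((((hasDerivAt_id s).pow 2).const_mul c₁).div_const 2)).congr_deriv ?_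
    simp only [id, Nat.cast_ofNat, Nat.add_one_sub_one, pow_one]
    ring
  · refine ((Real.hasDerivAt_sqrt hs.1.ne').const_mul 0.4).congr_deriv ?_
    have := (Real.sqrt_pos.2 hs.1).ne'
    field_simp
    ring
  · refine (O.b4 _ (hq s (Ioo_subset_Icc_self hs)) (ne_im ht.1)).trans ?_
    rw [Complex.sq_norm, normSq_mk, ← sq, ← sq]
    have := Real.sqrt_pos.2 hs.1
    gcongr
    exact hn s hs
  · rw [abs_neg, abs_of_pos (Real.exp_pos _)]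
    exact hc s hs
  · have h1 := O.b3 _ (hq s (Ioo_subset_Icc_self hs)) (ne_im ht.1)
    have h2 : (0.04 : ℝ) / ‖(⟨s, t⟩ : ℂ)‖ ≤ 0.04 / s := by gcongr; exacts [hs.1, hn s hs]
    refine abs_le_of_sq_le_sq' ?_ (by positivity) |> abs_le.2
    rw [mul_pow, div_pow, Real.sq_sqrt O.pos.le, Real.sq_sqrt hs.1.le, ← Real.exp_nat_mul]
    norm_num at h1 h2 ⊢
    linarith

theorem turn_pos (ht : t ∈ Ioc (0 : ℝ) 1) (hs : s ∈ Icc (0 : ℝ) 1) :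
    0.03 ≤ ⟪T (UU κ om) g 1 ⟨s, t⟩, T (UU κ om) g 1 ⟨0, t⟩⟫ ∧
    0.03 ≤ ⟪T (UU κ om) g 1 ⟨s, t⟩, T (UU κ om) g 1 ⟨1, t⟩⟫ ∧
    1.03 ≤ ⟪T (UU κ om) g 1 ⟨s, t⟩, T (UU κ om) g 1 ⟨0, t⟩⟫ +
      ⟪T (UU κ om) g 1 ⟨s, t⟩, T (UU κ om) g 1 ⟨1, t⟩⟫ ∧
    |⟪T (UU κ om) g I ⟨s, t⟩, T (UU κ om) g 1 ⟨0, t⟩⟫| +
      |⟪T (UU κ om) g I ⟨s, t⟩, T (UU κ om) g 1 ⟨1, t⟩⟫| ≤ 0.856 := by
  have hq : ∀ s ∈ Icc (0 : ℝ) 1, (⟨s, t⟩ : ℂ) ∈ Sq := fun s hs => mk_mem hs ⟨ht.1.le, ht.2⟩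
  have hw : ∀ s ∈ Icc (0 : ℝ) 1, (⟨s, t⟩ : ℂ) ∈ Dw := fun s hs => mem_Dw (hq s hs) (ne_im ht.1)
  have ha := Real.arctan_lt_pi_div_two (1 / t)
  have ha0 : 0 ≤ Real.arctan (1 / t) := Real.arctan_nonneg.2 (by have := ht.1; positivity)
  have hpi := Real.pi_lt_d4
  have hsq : ∀ w, Real.exp (-2 * om w) = Real.exp (-om w) ^ 2 := fun w => by
    rw [← Real.exp_nat_mul]; congr 1; push_cast; ring
  obtain ⟨c₀, c₁, hc, hsum⟩ : ∃ c₀ c₁ : ℝ,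
      (∀ s ∈ Ioo (0 : ℝ) 1, Real.exp (-om ⟨s, t⟩) ≤ c₀ + c₁ * s) ∧
      (Real.arctan (1 / t) / 2 + 0.07) ^ 2 + (c₀ + c₁ / 2) ^ 2 + 0.16 ≤ 1.94 := by
    rcases le_total t (1 / 2) with h | h
    · refine ⟨0.82125, 0.39835, fun s hs => ?_, by nlinarith⟩
      have h1 := O.b1 _ (hq s (Ioo_subset_Icc_self hs)) (ne_im ht.1)
      have h2 : ‖(⟨s, t⟩ : ℂ)‖ ≤ 0.5 + 0.62 * s := by
        refine (abs_le_of_sq_le_sq' ?_ (by linarith [hs.1])).2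
        rw [Complex.sq_norm, normSq_mk]
        nlinarith [hs.1, hs.2, ht.1]
      rw [hsq] at h1
      nlinarith [sq_nonneg (Real.exp (-om ⟨s, t⟩) - 1)]
    · have h3 := arctan_le (x := 1 / t) (by rw [div_le_iff₀ ht.1]; linarith)
      refine ⟨1.112, 0, fun s hs => ?_, by nlinarith⟩
      have h1 := O.b2 _ (hq s (Ioo_subset_Icc_self hs)) (ne_im ht.1)
      rw [hsq] at h1
      exact (abs_le_of_sq_le_sq' (by linarith) (by norm_num)).2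
  have i0 := hw 0 (left_mem_Icc.2 zero_le_one)
  have i1 := hw 1 (right_mem_Icc.2 zero_le_one)
  obtain ⟨l1, l2, l3, l4⟩ := (sys_line hF O S ht ((norm_T S i0 1).trans norm_one) hc).left
    (by simp [norm_T S i0]) (by simp [inner_T S i0, Complex.inner]) (inner_n_T S i0 1)
    (by rw [real_inner_comm, inner_T_f S i0]) hs
  obtain ⟨r1, r2, r3, r4⟩ := (sys_line hF O S ht ((norm_T S i1 1).trans norm_one) hc).right
    (by simp [norm_T S i1]) (by simp [inner_T S i1, Complex.inner]) (inner_n_T S i1 1)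
    (by rw [real_inner_comm, inner_T_f S i1]) hs
  simp only [zero_div, Real.arctan_zero, mul_zero, Real.sqrt_zero, add_zero, sub_zero, mul_one,
    Real.sqrt_one, one_pow, ne_eq, OfNat.ofNat_ne_zero, not_false_eq_true, zero_pow] at *
  have p1 := (abs_nonneg _).trans l1
  have p2 := (abs_nonneg _).trans l2
  have p3 := (abs_nonneg _).trans l3
  have q1 := (abs_nonneg _).trans r1
  have q2 := (abs_nonneg _).trans r2
  have q3 := (abs_nonneg _).trans r3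
  generalize Real.arctan (s / t) / 2 + 0.05 * s + 0.02 * √s = B at *
  generalize c₀ * s + c₁ * s ^ 2 / 2 = C at *
  generalize 0.4 * √s = E at *
  have m1 := mul_nonneg p1 q1
  have m2 := mul_nonneg p2 q2
  have m3 := mul_nonneg p3 q3
  refine ⟨?_, ?_, ?_, by linarith⟩
  · nlinarith [mul_self_nonneg (Real.arctan (1 / t) / 2 + 0.05 + 0.02 - B),
      mul_self_nonneg (c₀ + c₁ / 2 - C), mul_self_nonneg (0.4 - E)]
  · nlinarith [mul_self_nonneg B, mul_self_nonneg C, mul_self_nonneg E]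
  · nlinarith

theorem clos_line : Clos (fun s => √κ * Real.exp (om ⟨s, 1⟩)) (fun s => Real.exp (-om ⟨s, 1⟩))
    (fun s => ⟪T (UU κ om) g 1 ⟨s, 1⟩, T (UU κ om) g 1 ⟨0, 1⟩⟫)
    (fun s => ⟪ν ⟨s, 1⟩, T (UU κ om) g 1 ⟨0, 1⟩⟫) (fun s => ⟪g ⟨s, 1⟩, T (UU κ om) g 1 ⟨0, 1⟩⟫) := by
  have hw : ∀ s ∈ Icc (0 : ℝ) 1, (⟨s, 1⟩ : ℂ) ∈ Dw := fun s hs =>
    mem_Dw (mk_mem hs (right_mem_Icc.2 zero_le_one)) (ne_im one_pos)
  have i0 := hw 0 (left_mem_Icc.2 zero_le_one)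
  have k : ∀ {F : ℝ → E4} {F' m : E4} {s : ℝ}, HasDerivAt F F' s →
      HasDerivAt (fun s => ⟪F s, m⟫) ⟪F', m⟫ s := fun h => by
    simpa using h.inner ℝ (hasDerivAt_const _ _)
  refine ⟨by simp [norm_T S i0], inner_n_T S i0 1, by rw [real_inner_comm, inner_T_f S i0],
    fun s hs => (k (dT1 hF O S (hw s hs))).congr_deriv ?_,
    fun s hs => (k (dn O S (hw s hs))).congr_deriv ?_,
    fun s hs => (k (dg O S (hw s hs))).congr_deriv (real_inner_smul_left _ _ _)⟩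
  · simp only [inner_sub_left, inner_add_left, real_inner_smul_left,
      d2_zero O (hw s hs) (Or.inr rfl)]
    ring
  · rw [real_inner_smul_left, neg_mul]

end

end Pool.Agent.MP_6b3e96_gt.H17
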