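import Pool.Agent.MP_6b3e96_gt.H77.Spec

/-!
Estimates for a skew linear system of ordinary differential equations.
-/

open scoped Topology Real
open Set Filter

noncomputable section

namespace Pool.Agent.MP_6b3e96_gt.H17

open Pool.Agent.MP_6b3e96_gt.H77

theorem mono01 {f f' : ℝ → ℝ} (hf : ContinuousOn f (Icc 0 1))
    (hd : ∀ s ∈ Ioo (0 : ℝ) 1, HasDerivAt f (f' s) s) (h : ∀ s ∈ Ioo (0 : ℝ) 1, 0 ≤ f' s) :
    MonotoneOn f (Icc 0 1) :=
  monotoneOn_of_hasDerivWithinAt_nonneg (f' := f') (convex_Icc 0 1) hf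
    (fun s hs => (hd s (by simpa using hs)).hasDerivWithinAt) fun s hs => h s (by simpa using hs)

theorem smono01 {f f' : ℝ → ℝ} (hf : ContinuousOn f (Icc 0 1))
    (hd : ∀ s ∈ Ioo (0 : ℝ) 1, HasDerivAt f (f' s) s) (h : ∀ s ∈ Ioo (0 : ℝ) 1, 0 < f' s) :
    StrictMonoOn f (Icc 0 1) :=
  strictMonoOn_of_hasDerivWithinAt_pos (f' := f') (convex_Icc 0 1) hf
    (fun s hs => (hd s (by simpa using hs)).hasDerivWithinAt) fun s hs => h s (by simpa using hs)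

theorem abs_le01 {b b' B B' : ℝ → ℝ} (hb : ContinuousOn b (Icc 0 1))
    (hB : ContinuousOn B (Icc 0 1)) (db : ∀ s ∈ Ioo (0 : ℝ) 1, HasDerivAt b (b' s) s)
    (dB : ∀ s ∈ Ioo (0 : ℝ) 1, HasDerivAt B (B' s) s) (h : ∀ s ∈ Ioo (0 : ℝ) 1, |b' s| ≤ B' s)
    {s : ℝ} (hs : s ∈ Icc (0 : ℝ) 1) : |b s - b 0| ≤ B s - B 0 := by
  have h1 := mono01 (hB.sub hb) (fun s hs => (dB s hs).sub (db s hs))
    (fun s hs => by linarith [(abs_le.1 (h s hs)).2]) (left_mem_Icc.2 zero_le_one) hs hs.1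
  have h2 := mono01 (hB.add hb) (fun s hs => (dB s hs).add (db s hs))
    (fun s hs => by linarith [(abs_le.1 (h s hs)).1]) (left_mem_Icc.2 zero_le_one) hs hs.1
  simp only [Pi.sub_apply, Pi.add_apply] at h1 h2
  rw [abs_le]
  constructor <;> linarith

theorem const01 {b : ℝ → ℝ} (hb : ContinuousOn b (Icc 0 1))
    (db : ∀ s ∈ Ioo (0 : ℝ) 1, HasDerivAt b 0 s) {s : ℝ} (hs : s ∈ Icc (0 : ℝ) 1) : b s = b 0 := by
  have := abs_le01 (b' := fun _ => 0) (B := fun _ => 0) (B' := fun _ => 0) hb continuousOn_const db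
    (fun s _ => hasDerivAt_const s 0) (by simp) hs
  simpa [sub_eq_zero] using this

/-- A skew system together with majorants of the coefficients. -/
structure Sys (y b c e a β α B C E B' C' E' : ℝ → ℝ) : Prop where
  cy : ContinuousOn y (Icc 0 1)
  cb : ContinuousOn b (Icc 0 1)
  cc : ContinuousOn c (Icc 0 1)
  ce : ContinuousOn e (Icc 0 1)
  cB : ContinuousOn B (Icc 0 1)
  cC : ContinuousOn C (Icc 0 1)
  cE : ContinuousOn E (Icc 0 1)
  ly : ∀ s ∈ Ioo (0 : ℝ) 1, |y s| ≤ 1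
  dy : ∀ s ∈ Ioo (0 : ℝ) 1, HasDerivAt y (-(a s * b s + β s * c s + α s * e s)) s
  db : ∀ s ∈ Ioo (0 : ℝ) 1, HasDerivAt b (a s * y s) s
  dc : ∀ s ∈ Ioo (0 : ℝ) 1, HasDerivAt c (β s * y s) s
  de : ∀ s ∈ Ioo (0 : ℝ) 1, HasDerivAt e (α s * y s) s
  dB : ∀ s ∈ Ioo (0 : ℝ) 1, HasDerivAt B (B' s) s
  dC : ∀ s ∈ Ioo (0 : ℝ) 1, HasDerivAt C (C' s) s
  dE : ∀ s ∈ Ioo (0 : ℝ) 1, HasDerivAt E (E' s) s
  lB : ∀ s ∈ Ioo (0 : ℝ) 1, |a s| ≤ B' s
  lC : ∀ s ∈ Ioo (0 : ℝ) 1, |β s| ≤ C' s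
  lE : ∀ s ∈ Ioo (0 : ℝ) 1, |α s| ≤ E' s

namespace Sys

variable {y b c e a β α B C E B' C' E' : ℝ → ℝ}

theorem left (S : Sys y b c e a β α B C E B' C' E') (y0 : y 0 = 1) (b0 : b 0 = 0) (c0 : c 0 = 0)
    (e0 : e 0 = 0) {s : ℝ} (hs : s ∈ Icc (0 : ℝ) 1) :
    |b s| ≤ B s - B 0 ∧ |c s| ≤ C s - C 0 ∧ |e s| ≤ E s - E 0 ∧
      1 - ((B s - B 0) ^ 2 + (C s - C 0) ^ 2 + (E s - E 0) ^ 2) / 2 ≤ y s := by
  have key : ∀ {b a B B' : ℝ → ℝ}, ContinuousOn b (Icc 0 1) → ContinuousOn B (Icc 0 1) →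
      (∀ s ∈ Ioo (0 : ℝ) 1, HasDerivAt b (a s * y s) s) →
      (∀ s ∈ Ioo (0 : ℝ) 1, HasDerivAt B (B' s) s) → (∀ s ∈ Ioo (0 : ℝ) 1, |a s| ≤ B' s) →
      b 0 = 0 → ∀ s ∈ Icc (0 : ℝ) 1, |b s| ≤ B s - B 0 := by
    intro b a B B' h1 h2 h3 h4 h5 h6 s hs
    have := abs_le01 h1 h2 h3 h4 (fun s hs => by
      rw [abs_mul]
      exact (mul_le_of_le_one_right (abs_nonneg _) (S.ly s hs)).trans (h5 s hs)) hs
    rwa [h6, sub_zero] at this
  have hb := key S.cb S.cB S.db S.dB S.lB b0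
  have hc := key S.cc S.cC S.dc S.dC S.lC c0
  have he := key S.ce S.cE S.de S.dE S.lE e0
  refine ⟨hb s hs, hc s hs, he s hs, ?_⟩
  have hm := mono01 (f := fun s => y s + ((B s - B 0) ^ 2 + (C s - C 0) ^ 2 + (E s - E 0) ^ 2) / 2)
    (f' := fun s => -(a s * b s + β s * c s + α s * e s) +
      (B' s * (B s - B 0) + C' s * (C s - C 0) + E' s * (E s - E 0)))
    (S.cy.add (((((S.cB.sub continuousOn_const).pow 2).add
      ((S.cC.sub continuousOn_const).pow 2)).add ((S.cE.sub continuousOn_const).pow 2)).div_const 2))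
    (fun s hs => by
      refine ((S.dy s hs).add ((((((S.dB s hs).sub_const (B 0)).pow 2).add
        (((S.dC s hs).sub_const (C 0)).pow 2)).add
        (((S.dE s hs).sub_const (E 0)).pow 2)).div_const 2)).congr_deriv ?_
      simp only [Nat.cast_ofNat, Nat.add_one_sub_one, pow_one]
      ring)
    (fun s hs => by
      have k : ∀ {a b P Q : ℝ}, |a| ≤ P → |b| ≤ Q → a * b ≤ P * Q := fun h1 h2 =>
        (le_abs_self _).trans (by
          rw [abs_mul]; exact mul_le_mul h1 h2 (abs_nonneg _) ((abs_nonneg _).trans h1))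
      have hs' := Ioo_subset_Icc_self hs
      linarith [k (S.lB s hs) (hb s hs'), k (S.lC s hs) (hc s hs'), k (S.lE s hs) (he s hs')])
    (left_mem_Icc.2 zero_le_one) hs hs.1
  simp only [sub_self, y0] at hm
  linarith

theorem flip (S : Sys y b c e a β α B C E B' C' E') :
    Sys (fun s => y (1 - s)) (fun s => b (1 - s)) (fun s => c (1 - s)) (fun s => e (1 - s))
      (fun s => -a (1 - s)) (fun s => -β (1 - s)) (fun s => -α (1 - s))
      (fun s => -B (1 - s)) (fun s => -C (1 - s)) (fun s => -E (1 - s))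
      (fun s => B' (1 - s)) (fun s => C' (1 - s)) (fun s => E' (1 - s)) := by
  have m : ∀ s ∈ Ioo (0 : ℝ) 1, 1 - s ∈ Ioo (0 : ℝ) 1 := fun s hs =>
    ⟨by linarith [hs.2], by linarith [hs.1]⟩
  have ct : ∀ {f : ℝ → ℝ}, ContinuousOn f (Icc 0 1) →
      ContinuousOn (fun s => f (1 - s)) (Icc 0 1) := fun h =>
    h.comp (by fun_prop) fun s hs => ⟨by linarith [hs.2], by linarith [hs.1]⟩
  have d : ∀ {f : ℝ → ℝ} {f' s : ℝ}, HasDerivAt f f' (1 - s) →
      HasDerivAt (fun s => f (1 - s)) (-f') s := fun h => h.comp_const_sub 1 _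
  exact ⟨ct S.cy, ct S.cb, ct S.cc, ct S.ce, (ct S.cB).neg, (ct S.cC).neg, (ct S.cE).neg,
    fun s hs => S.ly _ (m s hs),
    fun s hs => (d (S.dy _ (m s hs))).congr_deriv (by ring),
    fun s hs => (d (S.db _ (m s hs))).congr_deriv (by ring),
    fun s hs => (d (S.dc _ (m s hs))).congr_deriv (by ring),
    fun s hs => (d (S.de _ (m s hs))).congr_deriv (by ring),
    fun s hs => (d (S.dB _ (m s hs))).neg.congr_deriv (by ring),
    fun s hs => (d (S.dC _ (m s hs))).neg.congr_deriv (by ring),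
    fun s hs => (d (S.dE _ (m s hs))).neg.congr_deriv (by ring),
    fun s hs => by simpa using S.lB _ (m s hs), fun s hs => by simpa using S.lC _ (m s hs),
    fun s hs => by simpa using S.lE _ (m s hs)⟩

theorem right (S : Sys y b c e a β α B C E B' C' E') (y0 : y 1 = 1) (b0 : b 1 = 0) (c0 : c 1 = 0)
    (e0 : e 1 = 0) {s : ℝ} (hs : s ∈ Icc (0 : ℝ) 1) :
    |b s| ≤ B 1 - B s ∧ |c s| ≤ C 1 - C s ∧ |e s| ≤ E 1 - E s ∧
      1 - ((B 1 - B s) ^ 2 + (C 1 - C s) ^ 2 + (E 1 - E s) ^ 2) / 2 ≤ y s := by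
  have := S.flip.left (by simpa) (by simpa) (by simpa) (by simpa)
    (s := 1 - s) ⟨by linarith [hs.2], by linarith [hs.1]⟩
  simp only [sub_sub_cancel, sub_zero, neg_sub_neg] at this
  exact this

end Sys

theorem clos_unique {α β y n p y' n' p' : ℝ → ℝ} (h : Clos α β y n p) (h' : Clos α β y' n' p') :
    y 1 = y' 1 := by
  have d : ∀ s ∈ Icc (0 : ℝ) 1,
      HasDerivAt (fun s => (y s - y' s) ^ 2 + (n s - n' s) ^ 2 + (p s - p' s) ^ 2) 0 s := by
    intro s hs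
    refine (((((h.dy s hs).sub (h'.dy s hs)).pow 2).add (((h.dn s hs).sub (h'.dn s hs)).pow 2)).add
      (((h.dp s hs).sub (h'.dp s hs)).pow 2)).congr_deriv ?_
    simp only [Nat.cast_ofNat, Nat.add_one_sub_one, pow_one, Pi.sub_apply]
    ring
  have := const01 (fun s hs => (d s hs).continuousAt.continuousWithinAt)
    (fun s hs => d s (Ioo_subset_Icc_self hs)) (right_mem_Icc.2 zero_le_one)
  simp only [h.y0, h'.y0, h.n0, h'.n0, h.p0, h'.p0, sub_self] at this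
  have h1 : (y 1 - y' 1) ^ 2 = 0 := by
    nlinarith [sq_nonneg (y 1 - y' 1), sq_nonneg (n 1 - n' 1), sq_nonneg (p 1 - p' 1)]
  exact sub_eq_zero.1 (pow_eq_zero_iff two_ne_zero |>.1 h1)

theorem arctan_le {x : ℝ} (hx : x ≤ 2) : Real.arctan x ≤ 1.1188 := by
  have h1 : Real.arctan 1 + Real.arctan (1 / 3) = Real.arctan 2 := by
    rw [Real.arctan_add (by norm_num)]; norm_num
  have h2 : Real.arctan (1 / 3) ≤ 1 / 3 := by
    have := Real.le_tan (x := Real.arctan (1 / 3)) (Real.arctan_nonneg.2 (by norm_num))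
      (Real.arctan_lt_pi_div_two _)
    rwa [Real.tan_arctan] at this
  have h3 := Real.arctan_mono hx
  rw [Real.arctan_one] at h1
  linarith [Real.pi_lt_d4]

end Pool.Agent.MP_6b3e96_gt.H17
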