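import Pool.Agent.MP_6b3e96_gt.H17.Side

/-!
The square root and the conormals of the four sides.
-/

open scoped ContDiff Topology RealInnerProductSpace Real
open Set Filter Metric Complex

noncomputable section

namespace Pool.Agent.MP_6b3e96_gt.H17

open Pool.Agent.MP_6b3e96_gt.H77

/-- The square root. -/
def rt (w : ℂ) : ℂ := w ^ (2⁻¹ : ℂ)
/-- The immersion near the umbilic point. -/
abbrev SZ (κ : ℝ) (u : ℂ → ℝ) (f ν : ℂ → E4) : Prop := Surf Dz u (fun z => 4 * (√κ : ℝ) * z ^ 2) f ν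

theorem rt_sq (w : ℂ) : rt w ^ 2 = w := cpow_ofNat_inv_pow w 2

theorem rt_zero : rt 0 = 0 := zero_cpow (by norm_num)

theorem rt_mem {w : ℂ} (hw : w ∈ box (-2) 2) : rt w ∈ Dz := by
  change rt w ^ 2 ∈ box (-2) 2
  rwa [rt_sq]

theorem Sq_sub : Sq ⊆ box (-2) 2 := fun w hw => by
  obtain ⟨⟨h1, h2⟩, h3, h4⟩ := mem_Sq.1 hw
  exact mem_box.2 ⟨⟨by linarith, by linarith⟩, by linarith, by linarith⟩

theorem rt_ne {w : ℂ} (hw : w ≠ 0) : rt w ≠ 0 := fun h => hw (by rw [← rt_sq w, h]; simp)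

theorem slit {w : ℂ} (hw : w ∈ Dw) : w ∈ slitPlane := hw.2.imp id ne_of_gt

theorem d_rt {w : ℂ} (hw : w ∈ Dw) : HasDerivAt rt (2 * rt w)⁻¹ w := by
  refine (hasStrictDerivAt_cpow_const (c := 2⁻¹) (slit hw)).hasDerivAt.congr_deriv ?_
  have h0 : w ≠ 0 := (Dw_sub hw).2
  have h1 := rt_ne h0
  rw [cpow_sub _ _ h0, cpow_one]
  change 2⁻¹ * (rt w / w) = _
  nth_rewrite 2 [← rt_sq w]
  field_simp

theorem cont_rt {w : ℂ} (hw : w ∈ Sq) : ContinuousAt rt w :=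
  continuousAt_cpow_const_of_re_pos (Or.inl hw.1.1) (by norm_num)

theorem isOpen_Dz : IsOpen Dz := (isOpen_box _ _).preimage (continuous_pow 2)

theorem zero_Dz : (0 : ℂ) ∈ Dz := by
  simp [Dz, mem_box]

theorem star_Dz : StarConvex ℝ 0 Dz := by
  intro z hz a b ha hb hab
  obtain ⟨⟨h1, h2⟩, h3, h4⟩ := mem_box.1 hz
  have e : (a • (0 : ℂ) + b • z) ^ 2 = (b ^ 2) • z ^ 2 := by simp [mul_pow]
  have h5 : 0 ≤ b ^ 2 := sq_nonneg b
  have h6 : b ^ 2 ≤ 1 := by nlinarith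
  change (a • (0 : ℂ) + b • z) ^ 2 ∈ box (-2) 2
  rw [e, mem_box, smul_re, smul_im, smul_eq_mul, smul_eq_mul]
  refine ⟨⟨?_, ?_⟩, ?_, ?_⟩ <;> nlinarith

variable {κ : ℝ} {om u : ℂ → ℝ} {f ν : ℂ → E4}

theorem exp_u (O : Om κ om u) {w : ℂ} (hw : w ∈ Dw) :
    Real.exp (u (rt w)) = 2 * ‖rt w‖ * Real.exp (UU κ om w) := by
  have h := rt_ne (Dw_sub hw).2
  have := Real.sqrt_pos.2 O.pos
  rw [O.rel _ (rt_mem hw.1) h, rt_sq, Real.exp_add, Real.exp_log (by positivity), exp_UU O]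
  ring

theorem sw_of (O : Om κ om u) (S : SZ κ u f ν) :
    SW κ om (fun w => f (rt w)) (fun w => ν (rt w)) := by
  have hd : DifferentiableOn ℂ rt Dw := fun w hw => (d_rt hw).differentiableAt.differentiableWithinAt
  have e : ∀ (x : ℝ) (w : ℂ), Real.exp (2 * x) = Real.exp x ^ 2 := fun x _ => by
    rw [← Real.exp_nat_mul]; norm_num
  have := surf_comp (u' := UU κ om) (H' := fun _ => (√κ : ℝ)) S (LinearIsometryEquiv.refl ℝ E4) rt
    (fun w => (2 * rt w)⁻¹ • (1 : ℂ →L[ℝ] ℂ)) 1 abs_one isOpen_Dw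
    ((hd.contDiffOn isOpen_Dw).restrict_scalars ℝ) (fun w hw => rt_mem hw.1)
    (fun w hw => (d_rt hw).complexToReal_fderiv) ((O.sm.mono Dw_sub).add contDiffOn_const)
    (fun w hw v v' => by
      have h := norm_pos_iff.2 (rt_ne (Dw_sub hw).2)
      have h1 : ∀ c : ℂ, ⟪c * v, c * v'⟫ = ‖c‖ ^ 2 * ⟪v, v'⟫ := fun c => by
        simp only [Complex.inner, Complex.sq_norm, normSq_apply, map_mul, mul_re, mul_im, conj_re,
          conj_im]
        ring
      simp only [smul_apply, one_apply_eq_self, smul_eq_mul, h1, norm_inv, norm_mul,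
        e _ w, exp_u O hw, Complex.norm_ofNat]
      field_simp)
    (fun w hw v => by
      have h := rt_ne (Dw_sub hw).2
      have h' : (starRingEnd ℂ) (rt w) ≠ 0 := by simpa using h
      have h1 : ((‖rt w‖ ^ 2 : ℝ) : ℂ) = rt w * (starRingEnd ℂ) (rt w) := by
        rw [mul_conj, normSq_eq_norm_sq]
      have h2 : (Real.exp (UU κ om w) : ℂ) ≠ 0 := ofReal_ne_zero.2 (Real.exp_pos _).ne'
      simp only [neg_mul, Real.exp_neg, e _ w, exp_u O hw, mul_pow, smul_apply,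
        one_apply_eq_self, smul_eq_mul, real_smul, one_mul, ofReal_inv, ofReal_mul, h1,
        map_mul, map_pow, map_inv₀, conj_ofReal, map_ofNat, ofReal_pow (Real.exp _),
        ofReal_pow 2, ofReal_ofNat]
      field_simp
      ring)
  simpa using this

theorem cont_g (S : SZ κ u f ν) : ContinuousOn (fun w => f (rt w)) Sq := fun _ hw =>
  (((diffAt S.opn S.sf (rt_mem (Sq_sub hw))).continuousAt.comp (cont_rt hw))).continuousWithinAt

theorem T_rt (O : Om κ om u) (S : SZ κ u f ν) {z : ℂ} (hz : 0 < z.re) (hw : z ^ 2 ∈ Dw) (v : ℂ) :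
    T (UU κ om) (fun w => f (rt w)) v (z ^ 2) = T u f (‖z‖ / z * v) z := by
  have e : rt (z ^ 2) = z := sq_cpow_two_inv hz
  have h1 := ((diffAt S.opn S.sf (rt_mem hw.1)).hasFDerivAt.comp _
    (d_rt hw).complexToReal_fderiv).fderiv
  have h2 := exp_u O hw
  have h0 : z ≠ 0 := by rintro rfl; simp at hz
  have h3 := norm_pos_iff.2 h0
  rw [e] at h1 h2
  have h4 : (‖z‖ / z * v : ℂ) = (2 * ‖z‖) • ((2 * z)⁻¹ * v) := by
    rw [real_smul]; push_cast; field_simp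
  rw [T, T, h4, map_smul, smul_smul, Real.exp_neg (u z), h2, Real.exp_neg]
  refine congrArg₂ _ ?_ (DFunLike.congr_fun h1 v)
  field_simp

theorem T_lim (S : SZ κ u f ν) (v d : ℂ) {n : E4}
    (h : ∀ r ∈ Ioc (0 : ℝ) (1 / 2), T u f v (r • d) = n) : T u f v 0 = n := by
  have c : Tendsto (fun r : ℝ => r • d) (𝓝[>] 0) (𝓝 0) :=
    (Continuous.tendsto' (by fun_prop) 0 0 (by simp)).mono_left nhdsWithin_le_nhds
  exact tendsto_nhds_unique ((diff_T S zero_Dz v).continuousAt.tendsto.comp c)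
    (tendsto_const_nhds.congr' (Filter.mem_of_superset (Ioc_mem_nhdsGT (by norm_num))
      fun r hr => (h r hr).symm))

theorem T_zero_A (hF : FrameStmt) (O : Om κ om u) (S : SZ κ u f ν) :
    T u f I 0 = T (UU κ om) (fun w => f (rt w)) I ⟨1, 0⟩ := by
  refine T_lim S I 1 fun r hr => ?_
  have e : (r • (1 : ℂ)) ^ 2 = ⟨r ^ 2, 0⟩ := by
    apply Complex.ext <;> simp [sq]
  have h1 : r ^ 2 ∈ Icc (0 : ℝ) 1 := ⟨sq_nonneg r, by nlinarith [hr.1, hr.2]⟩
  have h2 := ne_re (t := 0) (pow_pos hr.1 2)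
  rw [← T2_const hF O (sw_of O S) h1 (Or.inl rfl) h2, ← e,
    T_rt O S (by simpa using hr.1) (e ▸ mem_Dw (mk_mem h1 (by simp)) h2)]
  simp [abs_of_pos hr.1, hr.1.ne']

/-- The conormal direction of the diagonal. -/
def v1 : ℂ := (√2 / 2) • (1 - I)

theorem T_zero_B (hF : FrameStmt) (O : Om κ om u) (S : SZ κ u f ν) :
    T u f v1 0 = T (UU κ om) (fun w => f (rt w)) 1 ⟨0, 1⟩ := by
  refine T_lim S v1 (1 + I) fun r hr => ?_
  have e : (r • (1 + I : ℂ)) ^ 2 = ⟨0, 2 * r ^ 2⟩ := by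
    apply Complex.ext <;> simp [sq]
    ring
  have h1 : 2 * r ^ 2 ∈ Icc (0 : ℝ) 1 := ⟨by positivity, by nlinarith [hr.1, hr.2]⟩
  have h2 := ne_im (s := 0) (mul_pos two_pos (pow_pos hr.1 2))
  rw [← T1_const hF O (sw_of O S) h1 (Or.inl rfl) h2, ← e,
    T_rt O S (by simpa using hr.1) (e ▸ mem_Dw (mk_mem (by simp) h1) h2)]
  congr 1
  have h3 : ‖(1 + I : ℂ)‖ = √2 := by
    rw [Complex.norm_eq_sqrt_sq_add_sq]; norm_num
  have h4 : (1 + I : ℂ) ≠ 0 := fun h => by simpa using congrArg re h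
  have h5 : (r : ℂ) ≠ 0 := ofReal_ne_zero.2 hr.1.ne'
  rw [norm_smul, h3, Real.norm_of_nonneg hr.1.le, v1, real_smul, real_smul]
  push_cast
  field_simp
  linear_combination (-1 : ℂ) * I_mul_I

theorem exists_iso {A B C D : E4} (hA : ‖A‖ = 1) (hB : ‖B‖ = 1) (hC : ‖C‖ = 1) (hD : ‖D‖ = 1)
    (AB : ⟪A, B⟫ = -(√2 / 2)) (AC : ⟪A, C⟫ = 0) (AD : ⟪A, D⟫ = -(1 / 2)) (BC : ⟪B, C⟫ = -(1 / 2))
    (BD : ⟪B, D⟫ = 0) (CD : ⟪C, D⟫ = 0) : ∃ Φ : E4 ≃ₗᵢ[ℝ] E4,
      root 0 = (1 : ℝ) • Φ A ∧ root 1 = √2 • Φ B ∧ root 2 = √2 • Φ C ∧ root 3 = (2 : ℝ) • Φ D := by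
  have AA : ⟪A, A⟫ = 1 := by rw [real_inner_self_eq_norm_sq, hA, one_pow]
  have BB : ⟪B, B⟫ = 1 := by rw [real_inner_self_eq_norm_sq, hB, one_pow]
  have CC : ⟪C, C⟫ = 1 := by rw [real_inner_self_eq_norm_sq, hC, one_pow]
  have DD : ⟪D, D⟫ = 1 := by rw [real_inner_self_eq_norm_sq, hD, one_pow]
  have BA := (real_inner_comm A B).trans AB
  have CA := (real_inner_comm A C).trans AC
  have DA := (real_inner_comm A D).trans AD
  have CB := (real_inner_comm B C).trans BC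
  have DB := (real_inner_comm B D).trans BD
  have DC := (real_inner_comm C D).trans CD
  have h2 : √2 * √2 = 2 := Real.mul_self_sqrt zero_le_two
  let b : Fin 4 → E4 := ![(2 : ℝ) • D + √2 • C + (2 * √2) • B + (3 : ℝ) • A, √2 • C + √2 • B + A,
    √2 • B + A, A]
  have hb : Orthonormal ℝ b := by
    rw [orthonormal_iff_ite]
    intro i j
    fin_cases i <;> fin_cases j <;>
      simp only [b, Fin.reduceFinMk, Matrix.cons_val, Fin.zero_eta, Fin.mk_one, Fin.isValue,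
        inner_add_left, inner_add_right, real_inner_smul_left, real_inner_smul_right, AA, BB, CC,
        DD, AB, AC, AD, BC, BD, CD, BA, CA, DA, CB, DB, DC, Fin.reduceEq, if_true, if_false] <;>
      linarith [h2]
  let e := (basisOfOrthonormalOfCardEqFinrank hb (by simp)).toOrthonormalBasis (by simpa using hb)
  have he : ∀ x i, e.repr x i = ⟪b i, x⟫ := fun x i => by
    rw [e.repr_apply_apply]; simp [e]
  refine ⟨e.repr, ?_, ?_, ?_, ?_⟩ <;> ext i <;> rw [PiLp.smul_apply, he] <;> fin_cases i <;>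
    simp only [root, b, Fin.reduceFinMk, Matrix.cons_val, Fin.zero_eta, Fin.mk_one, Fin.isValue,
      inner_add_left, real_inner_smul_left, AA, BB, CC,
      DD, AB, AC, AD, BC, BD, CD, BA, CA, DA, CB, DB, DC, smul_eq_mul] <;>
    linarith [h2]

end Pool.Agent.MP_6b3e96_gt.H17
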