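import Pool.Agent.MP_6b3e96_gt.H17.Line

/-!
The immersion of the square is injective and lies in a chamber.
-/

open scoped ContDiff Topology RealInnerProductSpace Real
open Set Filter Metric Complex

noncomputable section

namespace Pool.Agent.MP_6b3e96_gt.H17

open Pool.Agent.MP_6b3e96_gt.H77

variable {κ : ℝ} {om u : ℂ → ℝ} {g ν : ℂ → E4}

theorem swp_mem {w : ℂ} (hw : w ∈ Sq) : swp w ∈ Sq := ⟨hw.2, hw.1⟩

theorem swp_ne {w : ℂ} (hw : w ≠ 0) : swp w ≠ 0 := fun e =>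
  hw (Complex.ext (congrArg im e) (congrArg re e))

theorem continuous_swp : Continuous swp := by
  rw [funext swp_eq]; fun_prop

theorem cont_swap (hc : ContinuousOn g Sq) : ContinuousOn (fun w => g (swp w)) Sq :=
  hc.comp continuous_swp.continuousOn fun _ => swp_mem

theorem tendsto_mk (s : ℝ) : Tendsto (fun t : ℝ => (⟨s, t⟩ : ℂ)) (𝓝[>] 0) (𝓝 ⟨s, 0⟩) := by
  have : Continuous fun t : ℝ => (⟨s, t⟩ : ℂ) := by
    have : (fun t : ℝ => (⟨s, t⟩ : ℂ)) = fun t : ℝ => (s : ℂ) + t * I := by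
      funext t; apply Complex.ext <;> simp
    rw [this]; fun_prop
  exact (this.tendsto 0).mono_left nhdsWithin_le_nhds

variable (hF : FrameStmt) (O : Om κ om u) (S : SW κ om g ν)
include hF O S

theorem T1_const {s t : ℝ} (ht : t ∈ Icc (0 : ℝ) 1) (hs : s = 0 ∨ s = 1) (h0 : (⟨s, t⟩ : ℂ) ≠ 0) :
    T (UU κ om) g 1 ⟨s, t⟩ = T (UU κ om) g 1 ⟨s, 1⟩ := by
  have hs' : s ∈ Icc (0 : ℝ) 1 := by rcases hs with rfl | rfl <;> simp
  have h := T2_const hF O (sw_swap O S) ht hs (swp_ne h0)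
  rwa [T_swap O S (mem_Dw (mk_mem ht hs') (swp_ne h0)),
    T_swap O S (mem_Dw (mk_mem (right_mem_Icc.2 zero_le_one) hs') (ne_re one_pos))] at h

theorem turn_all {w : ℂ} (hw : w ∈ Sq) (h0 : w ≠ 0) :
    0.03 ≤ ⟪T (UU κ om) g 1 w, T (UU κ om) g 1 ⟨0, 1⟩⟫ ∧
    0.03 ≤ ⟪T (UU κ om) g 1 w, T (UU κ om) g 1 ⟨1, 1⟩⟫ ∧
    1.03 ≤ ⟪T (UU κ om) g 1 w, T (UU κ om) g 1 ⟨0, 1⟩⟫ +
      ⟪T (UU κ om) g 1 w, T (UU κ om) g 1 ⟨1, 1⟩⟫ ∧
    |⟪T (UU κ om) g I w, T (UU κ om) g 1 ⟨0, 1⟩⟫| +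
      |⟪T (UU κ om) g I w, T (UU κ om) g 1 ⟨1, 1⟩⟫| ≤ 0.856 := by
  obtain ⟨s, t⟩ := w
  have key : ∀ t ∈ Ioc (0 : ℝ) 1,
      0.03 ≤ ⟪T (UU κ om) g 1 ⟨s, t⟩, T (UU κ om) g 1 ⟨0, 1⟩⟫ ∧
      0.03 ≤ ⟪T (UU κ om) g 1 ⟨s, t⟩, T (UU κ om) g 1 ⟨1, 1⟩⟫ ∧
      1.03 ≤ ⟪T (UU κ om) g 1 ⟨s, t⟩, T (UU κ om) g 1 ⟨0, 1⟩⟫ +
        ⟪T (UU κ om) g 1 ⟨s, t⟩, T (UU κ om) g 1 ⟨1, 1⟩⟫ ∧
      |⟪T (UU κ om) g I ⟨s, t⟩, T (UU κ om) g 1 ⟨0, 1⟩⟫| +
        |⟪T (UU κ om) g I ⟨s, t⟩, T (UU κ om) g 1 ⟨1, 1⟩⟫| ≤ 0.856 := by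
    intro t ht
    have h := turn_pos hF O S ht hw.1
    rwa [T1_const hF O S (Ioc_subset_Icc_self ht) (Or.inl rfl) (ne_im ht.1),
      T1_const hF O S (Ioc_subset_Icc_self ht) (Or.inr rfl) (ne_im ht.1)] at h
  rcases (show 0 ≤ t from hw.2.1).eq_or_lt with rfl | ht
  · have ev := (show ∀ᶠ t in 𝓝[>] (0 : ℝ), t ∈ Ioc (0 : ℝ) 1 from Ioc_mem_nhdsGT one_pos).mono key
    have c : ∀ v m, Tendsto (fun t : ℝ => ⟪T (UU κ om) g v ⟨s, t⟩, m⟫) (𝓝[>] 0)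
        (𝓝 ⟪T (UU κ om) g v ⟨s, 0⟩, m⟫) := fun v m =>
      ((diff_T S (mem_Dw hw h0) v).continuousAt.tendsto.comp (tendsto_mk s)).inner
        tendsto_const_nhds
    exact ⟨ge_of_tendsto (c _ _) (ev.mono fun _ h => h.1),
      ge_of_tendsto (c _ _) (ev.mono fun _ h => h.2.1),
      ge_of_tendsto ((c _ _).add (c _ _)) (ev.mono fun _ h => h.2.2.1),
      le_of_tendsto ((c _ _).abs.add (c _ _).abs) (ev.mono fun _ h => h.2.2.2)⟩
  · exact key t ⟨ht, hw.2.2⟩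

theorem cham_re (hc : ContinuousOn g Sq) {w : ℂ} (hw : w ∈ Sq) :
    (0 ≤ ⟪T (UU κ om) g 1 ⟨0, 1⟩, g w⟫ ∧ (⟪T (UU κ om) g 1 ⟨0, 1⟩, g w⟫ = 0 ↔ w.re = 0)) ∧
    (0 ≤ ⟪-T (UU κ om) g 1 ⟨1, 1⟩, g w⟫ ∧
      (⟪-T (UU κ om) g 1 ⟨1, 1⟩, g w⟫ = 0 ↔ 1 - w.re = 0)) := by
  obtain ⟨s, t⟩ := w
  have ht : t ∈ Icc (0 : ℝ) 1 := hw.2
  have hs : s ∈ Icc (0 : ℝ) 1 := hw.1
  have mono : ∀ m : E4, (∀ w ∈ Sq, w ≠ 0 → 0.03 ≤ ⟪T (UU κ om) g 1 w, m⟫) →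
      StrictMonoOn (fun s : ℝ => ⟪m, g ⟨s, t⟩⟫) (Icc 0 1) := by
    intro m hm
    have c : Continuous fun s : ℝ => (⟨s, t⟩ : ℂ) := by
      have : (fun s : ℝ => (⟨s, t⟩ : ℂ)) = fun s : ℝ => (s : ℂ) + t * I := by
        funext s; apply Complex.ext <;> simp
      rw [this]; fun_prop
    refine smono01 (f' := fun s => √κ * Real.exp (om ⟨s, t⟩) * ⟪T (UU κ om) g 1 ⟨s, t⟩, m⟫)
      (continuousOn_const.inner (hc.comp c.continuousOn fun s hs => mk_mem hs ht))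
      (fun s hs => ?_) fun s hs => ?_
    · have := (hasDerivAt_const s m).inner ℝ
        (dg O S (mem_Dw (mk_mem (Ioo_subset_Icc_self hs) ht) (ne_re hs.1)))
      refine this.congr_deriv ?_
      rw [inner_zero_left, add_zero, real_inner_smul_right, real_inner_comm]
    · have := hm _ (mk_mem (Ioo_subset_Icc_self hs) ht) (ne_re hs.1)
      have := Real.sqrt_pos.2 O.pos
      positivity
  have z0 : ∀ t ∈ Ioc (0 : ℝ) 1, ⟪T (UU κ om) g 1 ⟨0, 1⟩, g ⟨0, t⟩⟫ = 0 := fun t ht => by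
    rw [← T1_const hF O S (Ioc_subset_Icc_self ht) (Or.inl rfl) (ne_im ht.1), inner_T_f S
      (mem_Dw (mk_mem (left_mem_Icc.2 zero_le_one) (Ioc_subset_Icc_self ht)) (ne_im ht.1))]
  have z0' : ⟪T (UU κ om) g 1 ⟨0, 1⟩, g ⟨0, t⟩⟫ = 0 := by
    rcases ht.1.eq_or_lt with rfl | h
    · have ev : ∀ᶠ t in 𝓝[>] (0 : ℝ), t ∈ Ioc (0 : ℝ) 1 := Ioc_mem_nhdsGT one_pos
      have c : Tendsto (fun t : ℝ => ⟪T (UU κ om) g 1 ⟨0, 1⟩, g ⟨0, t⟩⟫) (𝓝[>] 0)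
          (𝓝 ⟪T (UU κ om) g 1 ⟨0, 1⟩, g ⟨0, 0⟩⟫) :=
        tendsto_const_nhds.inner ((hc _ (mk_mem ht ht)).tendsto.comp
          (tendsto_nhdsWithin_iff.2 ⟨tendsto_mk 0,
            ev.mono fun t h => mk_mem ht (Ioc_subset_Icc_self h)⟩))
      exact tendsto_nhds_unique c (tendsto_const_nhds.congr' (ev.mono fun t h => (z0 t h).symm))
    · exact z0 t ⟨h, ht.2⟩
  have z1 : ⟪T (UU κ om) g 1 ⟨1, 1⟩, g ⟨1, t⟩⟫ = 0 := by
    rw [← T1_const hF O S ht (Or.inr rfl) (ne_re one_pos), inner_T_f S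
      (mem_Dw (mk_mem (right_mem_Icc.2 zero_le_one) ht) (ne_re one_pos))]
  have m0 := mono _ fun w hw h0 => (turn_all hF O S hw h0).1
  have m1 := mono _ fun w hw h0 => (turn_all hF O S hw h0).2.1
  have a0 := m0.le_iff_le (left_mem_Icc.2 zero_le_one) hs
  have a1 := m0.eq_iff_eq hs (left_mem_Icc.2 zero_le_one)
  have b0 := m1.le_iff_le hs (right_mem_Icc.2 zero_le_one)
  have b1 := m1.eq_iff_eq hs (right_mem_Icc.2 zero_le_one)
  simp only [z0', z1] at a0 a1 b0 b1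
  refine ⟨⟨a0.2 hs.1, a1⟩, ?_, ?_⟩
  · rw [inner_neg_left, neg_nonneg]
    exact b0.2 hs.2
  · rw [inner_neg_left, neg_eq_zero, b1, sub_eq_zero, eq_comm]

theorem inj_sq (hc : ContinuousOn g Sq) : InjOn g Sq := by
  intro p hp q hq e
  by_contra hne
  have S' := sw_swap O S
  have c01 : (⟨0, 1⟩ : ℂ) ∈ Dw := mem_Dw (mk_mem (by simp) (by simp)) (ne_im one_pos)
  have c11 : (⟨1, 1⟩ : ℂ) ∈ Dw := mem_Dw (mk_mem (by simp) (by simp)) (ne_im one_pos)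
  set v := q - p with hv
  set m₁ := T (UU κ om) g 1 ⟨0, 1⟩ + T (UU κ om) g 1 ⟨1, 1⟩ with hm₁
  set m₂ := T (UU κ om) g I ⟨1, 0⟩ + T (UU κ om) g I ⟨1, 1⟩ with hm₂
  have hmem : ∀ s ∈ Icc (0 : ℝ) 1, p + s • v ∈ Sq := fun s hs => by
    obtain ⟨⟨p1, p2⟩, p3, p4⟩ := mem_Sq.1 hp
    obtain ⟨⟨q1, q2⟩, q3, q4⟩ := mem_Sq.1 hq
    obtain ⟨s1, s2⟩ := hs
    simp only [mem_Sq, hv, add_re, add_im, smul_re, smul_im, sub_re, sub_im, smul_eq_mul]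
    refine ⟨⟨?_, ?_⟩, ?_, ?_⟩ <;> nlinarith
  have hne0 : ∀ s ∈ Ioo (0 : ℝ) 1, p + s • v ≠ 0 := fun s hs h => by
    obtain ⟨⟨p1, p2⟩, p3, p4⟩ := mem_Sq.1 hp
    obtain ⟨⟨q1, q2⟩, q3, q4⟩ := mem_Sq.1 hq
    obtain ⟨s1, s2⟩ := hs
    have h1 := congrArg re h
    have h2 := congrArg im h
    simp only [hv, add_re, add_im, smul_re, smul_im, sub_re, sub_im, smul_eq_mul, zero_re,
      zero_im] at h1 h2
    refine hne (Complex.ext ?_ ?_) <;> nlinarith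
  have hv0 : 0 < v.re ^ 2 + v.im ^ 2 := by
    have := normSq_pos.2 (sub_ne_zero.2 (Ne.symm hne))
    rwa [normSq_apply, ← sq, ← sq] at this
  have hm := smono01 (f := fun s => ⟪g (p + s • v), v.re • m₁ + v.im • m₂⟫)
    (f' := fun s => ⟪fderiv ℝ g (p + s • v) v, v.re • m₁ + v.im • m₂⟫)
    ((hc.comp (by fun_prop) hmem).inner continuousOn_const) (fun s hs => by
      have h1 : HasDerivAt (fun s : ℝ => p + s • v) v s := by
        simpa using ((hasDerivAt_id s).smul_const v).const_add p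
      have h2 := (diffAt S.opn S.sf (mem_Dw (hmem s (Ioo_subset_Icc_self hs))
        (hne0 s hs))).hasFDerivAt.comp_hasDerivAt s h1
      simpa using h2.inner ℝ (hasDerivAt_const s (v.re • m₁ + v.im • m₂)))
    (fun s hs => by
      have w1 := hmem s (Ioo_subset_Icc_self hs)
      have w0 := hne0 s hs
      generalize p + s • v = w at *
      obtain ⟨-, -, a1, a2⟩ := turn_all hF O S w1 w0
      obtain ⟨-, -, b1, b2⟩ := turn_all hF O S' (swp_mem w1) (swp_ne w0)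
      have d := mem_Dw (swp_mem w1) (swp_ne w0)
      simp only [T_swap O S d, T_swap O S c01, T_swap O S c11, swp_one, swp_I, swp_mk] at b1 b2
      rw [show swp (swp w) = w from rfl] at b1 b2
      have hT : T (UU κ om) g v w = v.re • T (UU κ om) g 1 w + v.im • T (UU κ om) g I w := by
        conv_lhs => rw [show v = v.re • (1 : ℂ) + v.im • I by simp]
        simp only [T, map_add, map_smul, smul_add, smul_comm (Real.exp _)]
      rw [df_eq (UU κ om), real_inner_smul_left]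
      refine mul_pos (Real.exp_pos _) ?_
      rw [← inner_add_right] at a1 b1
      have a3 := (abs_add_le _ _).trans a2
      have b3 := (abs_add_le _ _).trans b2
      rw [← inner_add_right] at a3 b3
      rw [hT]
      simp only [inner_add_left, inner_add_right (y := v.re • m₁), real_inner_smul_left,
        real_inner_smul_right]
      rw [← hm₁] at a1 a3
      rw [← hm₂] at b1 b3
      generalize ⟪T (UU κ om) g 1 w, m₁⟫ = A at *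
      generalize ⟪T (UU κ om) g I w, m₁⟫ = B at *
      generalize ⟪T (UU κ om) g 1 w, m₂⟫ = C at *
      generalize ⟪T (UU κ om) g I w, m₂⟫ = E at *
      obtain ⟨a4, a5⟩ := abs_le.1 a3
      obtain ⟨b4, b5⟩ := abs_le.1 b3
      nlinarith [mul_nonneg (sub_nonneg.2 a1) (sq_nonneg v.re),
        mul_nonneg (sub_nonneg.2 b1) (sq_nonneg v.im),
        mul_nonneg (sub_nonneg.2 (add_le_add a4 b4)) (sq_nonneg (v.re + v.im)),
        mul_nonneg (sub_nonneg.2 (add_le_add a5 b5)) (sq_nonneg (v.re - v.im))])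
    (left_mem_Icc.2 zero_le_one) (right_mem_Icc.2 zero_le_one) one_pos
  simp only [zero_smul, add_zero, one_smul, hv, add_sub_cancel, e, lt_self_iff_false] at hm

end Pool.Agent.MP_6b3e96_gt.H17
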