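import Pool.Agent.MP_6b3e96_gt.H17.Ode

/-!
Naturality of conformal minimal immersions, reflections and charts.
-/

open scoped ContDiff Topology RealInnerProductSpace Real
open Set Filter Metric Complex

noncomputable section

namespace Pool.Agent.MP_6b3e96_gt.H17

open Pool.Agent.MP_6b3e96_gt.H77

variable {D D' : Set ℂ} {u u' : ℂ → ℝ} {H H' : ℂ → ℂ} {f ν : ℂ → E4}

theorem diffAt {E : Type} [NormedAddCommGroup E] [NormedSpace ℝ E] {F : ℂ → E} (hD : IsOpen D)
    (h : ContDiffOn ℝ ∞ F D) {z : ℂ} (hz : z ∈ D) : DifferentiableAt ℝ F z :=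
  ((h z hz).contDiffAt (hD.mem_nhds hz)).differentiableAt (by simp)

/-- Change of the parameter, of the position in space and of the sign of the normal. -/
theorem surf_comp (S : Surf D u H f ν) (R : E4 ≃ₗᵢ[ℝ] E4) (φ : ℂ → ℂ) (L : ℂ → ℂ →L[ℝ] ℂ) (ε : ℝ)
    (hε : |ε| = 1) (ho : IsOpen D') (hφ : ContDiffOn ℝ ∞ φ D') (hm : MapsTo φ D' D)
    (hL : ∀ z ∈ D', HasFDerivAt φ (L z) z) (hu : ContDiffOn ℝ ∞ u' D')
    (hc : ∀ z ∈ D', ∀ v w, Real.exp (2 * u (φ z)) * ⟪L z v, L z w⟫ =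
      Real.exp (2 * u' z) * ⟪v, w⟫)
    (hw : ∀ z ∈ D', ∀ v, (ε * Real.exp (-2 * u (φ z))) • (starRingEnd ℂ) (H (φ z) * L z v) =
      Real.exp (-2 * u' z) • L z ((starRingEnd ℂ) (H' z * v))) :
    Surf D' u' H' (fun z => R (f (φ z))) (fun z => ε • R (ν (φ z))) := by
  have hf : ∀ z ∈ D', ∀ v, fderiv ℝ (fun z => R (f (φ z))) z v = R (fderiv ℝ f (φ z) (L z v)) := by
    intro z hz v
    have := (R.toContinuousLinearEquiv.toContinuousLinearMap.hasFDerivAt.comp z
      ((diffAt S.opn S.sf (hm hz)).hasFDerivAt.comp z (hL z hz))).fderiv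
    exact DFunLike.congr_fun this v
  have hn : ∀ z ∈ D', ∀ v, fderiv ℝ (fun z => ε • R (ν (φ z))) z v =
      ε • R (fderiv ℝ ν (φ z) (L z v)) := by
    intro z hz v
    have := ((R.toContinuousLinearEquiv.toContinuousLinearMap.hasFDerivAt.comp z
      ((diffAt S.opn S.sn (hm hz)).hasFDerivAt.comp z (hL z hz))).const_smul ε).fderiv
    exact DFunLike.congr_fun this v
  refine ⟨ho, R.contDiff.comp_contDiffOn (S.sf.comp hφ hm),
    (R.contDiff.comp_contDiffOn (S.sn.comp hφ hm)).const_smul ε, hu, fun z hz => ?_,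
    fun z hz => ?_, fun z hz => ?_, fun z hz v => ?_, fun z hz v w => ?_, fun z hz v => ?_⟩
  · rw [R.norm_map, S.nf _ (hm hz)]
  · rw [norm_smul, R.norm_map, S.nn _ (hm hz), Real.norm_eq_abs, hε, mul_one]
  · rw [inner_smul_left, R.inner_map_map, S.fn _ (hm hz), mul_zero]
  · rw [hf z hz, inner_smul_left, R.inner_map_map, S.nor _ (hm hz), mul_zero]
  · rw [hf z hz, hf z hz, R.inner_map_map, S.conf _ (hm hz), hc z hz]
  · have := congrArg (fun x => R (fderiv ℝ f (φ z) x)) (hw z hz v)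
    simp only [map_smul, mul_smul] at this
    rw [hn z hz, hf z hz, S.wei _ (hm hz), neg_smul, neg_smul, map_neg, map_smul, smul_neg, this]

theorem surf_mono (S : Surf D u H f ν) (ho : IsOpen D') (h : D' ⊆ D) : Surf D' u H f ν :=
  ⟨ho, S.sf.mono h, S.sn.mono h, S.su.mono h, fun z hz => S.nf z (h hz), fun z hz => S.nn z (h hz),
    fun z hz => S.fn z (h hz), fun z hz => S.nor z (h hz), fun z hz => S.conf z (h hz),
    fun z hz => S.wei z (h hz)⟩

theorem inner_f_df (S : Surf D u H f ν) {z : ℂ} (hz : z ∈ D) (v : ℂ) :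
    ⟪fderiv ℝ f z v, f z⟫ = 0 := by
  have hd := (diffAt S.opn S.sf hz).hasFDerivAt
  have h1 := hd.inner ℝ hd
  have h2 : HasFDerivAt (fun z => ⟪f z, f z⟫) (0 : ℂ →L[ℝ] ℝ) z := by
    refine (hasFDerivAt_const (1 : ℝ) z).congr_of_eventuallyEq ?_
    filter_upwards [S.opn.mem_nhds hz] with w hw
    rw [real_inner_self_eq_norm_sq, S.nf w hw, one_pow]
  have h3 := DFunLike.congr_fun (h1.unique h2) v
  simp only [ContinuousLinearMap.comp_apply, ContinuousLinearMap.prod_apply, fderivInnerCLM_apply,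
    zero_apply] at h3
  rw [real_inner_comm (f z)] at h3
  rw [real_inner_comm]
  linarith

/-- The unit tangent frame. -/
def T (u : ℂ → ℝ) (f : ℂ → E4) (v z : ℂ) : E4 := Real.exp (-u z) • fderiv ℝ f z v

theorem inner_T (S : Surf D u H f ν) {z : ℂ} (hz : z ∈ D) (v w : ℂ) :
    ⟪T u f v z, T u f w z⟫ = ⟪v, w⟫ := by
  rw [T, T, real_inner_smul_left, real_inner_smul_right, S.conf z hz, ← mul_assoc, ← mul_assoc,
    ← Real.exp_add, ← Real.exp_add, show -u z + -u z + 2 * u z = 0 by ring, Real.exp_zero, one_mul]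

theorem norm_T (S : Surf D u H f ν) {z : ℂ} (hz : z ∈ D) (v : ℂ) : ‖T u f v z‖ = ‖v‖ := by
  have := inner_T S hz v v
  rwa [real_inner_self_eq_norm_sq, real_inner_self_eq_norm_sq,
    pow_left_inj₀ (norm_nonneg _) (norm_nonneg _) two_ne_zero] at this

theorem inner_T_f (S : Surf D u H f ν) {z : ℂ} (hz : z ∈ D) (v : ℂ) : ⟪T u f v z, f z⟫ = 0 := by
  rw [T, real_inner_smul_left, inner_f_df S hz, mul_zero]

theorem inner_n_T (S : Surf D u H f ν) {z : ℂ} (hz : z ∈ D) (v : ℂ) : ⟪ν z, T u f v z⟫ = 0 := by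
  rw [T, real_inner_smul_right, S.nor z hz, mul_zero]

theorem df_eq (u : ℂ → ℝ) (f : ℂ → E4) (v z : ℂ) :
    fderiv ℝ f z v = Real.exp (u z) • T u f v z := by
  rw [T, smul_smul, ← Real.exp_add, add_neg_cancel, Real.exp_zero, one_smul]

theorem diff_T (S : Surf D u H f ν) {z : ℂ} (hz : z ∈ D) (v : ℂ) :
    DifferentiableAt ℝ (T u f v) z := by
  have h1 : ContDiffOn ℝ ∞ (fderiv ℝ f) D := S.sf.fderiv_of_isOpen S.opn (by simp)
  have h2 := diffAt S.opn h1 hz
  have h3 := diffAt S.opn S.su hz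
  unfold T
  fun_prop

/-- The linear part of an anticonformal map. -/
def La (a : ℂ) : ℂ →L[ℝ] ℂ := (ContinuousLinearMap.mul ℝ ℂ a).comp conjCLE.toContinuousLinearMap

@[simp] theorem La_apply (a v : ℂ) : La a v = a * (starRingEnd ℂ) v := rfl

theorem inner_La {a : ℂ} (ha : ‖a‖ = 1) (v w : ℂ) : ⟪La a v, La a w⟫ = ⟪v, w⟫ := by
  have h : a.re ^ 2 + a.im ^ 2 = 1 := by
    have := Complex.sq_norm a
    rw [ha, normSq_apply] at this
    linarith
  simp only [La_apply, Complex.inner, map_mul, conj_conj, mul_re, mul_im, conj_re, conj_im]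
  linear_combination (v.re * w.re + v.im * w.im) * h

theorem surf_anti (S : Surf D u H f ν) (R : E4 ≃ₗᵢ[ℝ] E4) {a b : ℂ} (ha : ‖a‖ = 1) (ε : ℝ)
    (hε : |ε| = 1) (ho : IsOpen D') (hD : D' ⊆ D) {ρ : ℂ → ℂ} (hρ : ∀ z, ρ z = La a z + b)
    (hm : MapsTo ρ D' D) (hu : ∀ z ∈ D', u (ρ z) = u z)
    (hH : ∀ z ∈ D', ε * (H (ρ z) * a ^ 2) = (starRingEnd ℂ) (H z)) :
    Surf D' u H (fun z => R (f (ρ z))) (fun z => ε • R (ν (ρ z))) := by
  obtain rfl : ρ = fun z => La a z + b := funext hρ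
  refine surf_comp S R _ (fun _ => La a) ε hε ho ((La a).contDiff.add contDiff_const).contDiffOn hm
    (fun z _ => (La a).hasFDerivAt.add_const b) (S.su.mono hD) (fun z hz v w => ?_) fun z hz v => ?_
  · rw [hu z hz, inner_La ha]
  · have h1 : a * (starRingEnd ℂ) a = 1 := by rw [mul_conj, normSq_eq_norm_sq, ha]; simp
    have h2 := congrArg (starRingEnd ℂ) (hH z hz)
    rw [hu z hz]
    simp only [map_mul, map_pow, conj_conj, conj_ofReal, La_apply, real_smul, ofReal_mul] at h2 ⊢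
    rw [← h2]
    linear_combination (-(ε * Real.exp (-2 * u z) * (starRingEnd ℂ) (H (a * (starRingEnd ℂ) z + b)) *
      (starRingEnd ℂ) a * v)) * h1

/-- Reflection principle. -/
theorem reflect (hR : RigidStmt) (S : Surf D u H f ν) (R : E4 ≃ₗᵢ[ℝ] E4) {a b v₀ p : ℂ}
    (ha : ‖a‖ = 1) (hv : ∀ v, La a v = v - (2 * ⟪v₀, v⟫) • v₀) {ρ : ℂ → ℂ}
    (hρ : ∀ z, ρ z = La a z + b) (hp : p ∈ D) (hfix : ρ p = p)
    (hu : ∀ z ∈ D, u (ρ z) = u z) (hH : ∀ z, H (ρ z) * a ^ 2 = (starRingEnd ℂ) (H z))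
    (hT : ∀ x, R x = x - (2 * ⟪T u f v₀ p, x⟫) • T u f v₀ p) :
    ∀ᶠ z in 𝓝 p, f (ρ z) = R (f z) := by
  obtain ⟨r, hr, hb⟩ := Metric.isOpen_iff.1 S.opn p hp
  have hm : MapsTo ρ (ball p r) (ball p r) := by
    intro z hz
    rw [mem_ball, dist_eq_norm] at hz ⊢
    have : ρ z - p = La a (z - p) := by
      conv_lhs => rw [← hfix, hρ, hρ]
      rw [map_sub]; ring
    rw [this, La_apply, norm_mul, ha, one_mul, norm_conj]
    exact hz
  have S1 := surf_anti S R.symm ha 1 abs_one isOpen_ball hb hρ (hm.mono_right hb)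
    (fun z hz => hu z (hb hz)) fun z _ => by simpa using hH z
  have e : ∀ x, ⟪T u f v₀ p, x⟫ = 0 → R.symm x = x := fun x hx => by
    rw [R.symm_apply_eq, hT, hx, mul_zero, zero_smul, sub_zero]
  have hd : HasFDerivAt ρ (La a) p := by
    obtain rfl : ρ = fun z => La a z + b := funext hρ
    exact (La a).hasFDerivAt.add_const b
  have h := (hR _ _ _ _ _ _ _ S1 (surf_mono S isOpen_ball hb) (convex_ball p r).isPreconnected p
    (mem_ball_self hr) (by simp only [hfix]; exact e _ (inner_T_f S hp v₀))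
    (by simp only [hfix, one_smul]; exact e _ (by rw [real_inner_comm, inner_n_T S hp])) (by
      have hf : HasFDerivAt f (fderiv ℝ f p) (ρ p) := by
        rw [hfix]; exact (diffAt S.opn S.sf hp).hasFDerivAt
      have := (R.symm.toContinuousLinearEquiv.toContinuousLinearMap.hasFDerivAt.comp p
        (hf.comp p hd)).fderiv
      refine this.trans (ContinuousLinearMap.ext fun v => ?_)
      change R.symm (fderiv ℝ f p (La a v)) = _
      rw [R.symm_apply_eq, hT, hv, map_sub, map_smul, df_eq u f v, df_eq u f v₀,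
        real_inner_smul_right, inner_T S hp, smul_smul]
      congr 2
      ring)).1
  filter_upwards [ball_mem_nhds p hr] with z hz
  exact R.symm_apply_eq.1 (h hz)

theorem chart_of (hF : FrameStmt) (S : Surf D u H f ν) {p : ℂ} (hp : p ∈ D) :
    IsChart (fun z => f (p + (Real.exp (u p))⁻¹ • z)) (f p) (ν p) ∧
      normA2 (fun z => f (p + (Real.exp (u p))⁻¹ • z)) (ν p) =
        2 * ‖H p‖ ^ 2 * Real.exp (-4 * u p) := by
  set c : ℝ := (Real.exp (u p))⁻¹ with hc
  have hc' : c = Real.exp (-u p) := (Real.exp_neg _).symm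
  have hφ : ContDiff ℝ ∞ fun z : ℂ => p + c • z := by fun_prop
  have ho : IsOpen ((fun z : ℂ => p + c • z) ⁻¹' D) := S.opn.preimage hφ.continuous
  have h0 : (0 : ℂ) ∈ (fun z : ℂ => p + c • z) ⁻¹' D := by simpa
  have S1 := surf_comp (u' := fun z => u (p + c • z) - u p) (H' := fun z => H (p + c • z) * c ^ 2)
    S (LinearIsometryEquiv.refl ℝ E4) (fun z : ℂ => p + c • z)
    (fun _ => c • ContinuousLinearMap.id ℝ ℂ) 1 abs_one ho hφ.contDiffOn (fun z hz => hz)
    (fun z _ => ((hasFDerivAt_id z).const_smul c).const_add p)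
    ((S.su.comp hφ.contDiffOn fun z hz => hz).sub contDiffOn_const)
    (fun z _ v w => by
      simp only [smul_apply, ContinuousLinearMap.id_apply,
        real_inner_smul_left, real_inner_smul_right]
      rw [hc', ← mul_assoc, ← mul_assoc, ← Real.exp_add, ← Real.exp_add]
      congr 2
      ring)
    (fun z _ v => by
      have e : Real.exp (-2 * (u (p + c • z) - u p)) * c ^ 2 = Real.exp (-2 * u (p + c • z)) := by
        conv_lhs => enter [2]; rw [hc', ← Real.exp_nat_mul]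
        rw [← Real.exp_add]
        congr 1
        push_cast
        ring
      rw [← e]
      simp only [smul_apply, ContinuousLinearMap.id_apply, real_smul, map_mul,
        map_pow, conj_ofReal]
      push_cast
      ring)
  simp only [LinearIsometryEquiv.coe_refl, id, one_smul] at S1
  have hs : ∀ v w, sff (fun z => f (p + c • z)) (ν p) v w = (H p * c ^ 2 * v * w).re := by
    intro v w
    simpa [sff] using (hF _ _ _ _ _ S1 0 h0 v w).2
  refine ⟨⟨⟨_, ho.mem_nhds h0, S1.sf⟩, by simp, fun v => ?_, S.nn p hp, S.fn p hp,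
    fun v => by simpa using S1.nor 0 h0 v, ?_⟩, ?_⟩
  · simpa [T] using norm_T S1 h0 v
  · rw [hs, hs, mul_assoc _ I, I_mul_I]; simp
  · have : Real.exp (-4 * u p) = c ^ 4 := by
      rw [hc', ← Real.exp_nat_mul]; congr 1; push_cast; ring
    rw [normA2, hs, hs, hs, hs, this, Complex.sq_norm, normSq_apply, ← ofReal_pow]
    simp only [mul_re, mul_im, ofReal_re, ofReal_im, I_re, I_im, one_re, one_im]
    ring

theorem refl_apply (i : Fin 4) {c : ℝ} {n : E4} (hc : c ≠ 0) (hn : ‖n‖ = 1) (h : root i = c • n)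
    (x : E4) : refl i x = x - (2 * ⟪n, x⟫) • n := by
  unfold H77.refl
  rw [Submodule.reflection_orthogonal_apply, Submodule.reflection_singleton_apply, h,
    norm_smul, hn, real_inner_smul_left, neg_sub, two_smul, ← add_smul, smul_smul]
  congr 2
  simp only [RCLike.ofReal_real_eq_id, id, Real.norm_eq_abs, mul_one, sq_abs]
  field_simp
  ring

end Pool.Agent.MP_6b3e96_gt.H17
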