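import Pool.Agent.MP_6b3e96_gt.H17.Root

/-!
From the solution of the sinh-Gordon equation to the fundamental piece.
-/

open scoped ContDiff Topology RealInnerProductSpace Real
open Set Filter Metric Complex

noncomputable section

namespace Pool.Agent.MP_6b3e96_gt.H17

open Pool.Agent.MP_6b3e96_gt.H77

variable {κ : ℝ} {om u : ℂ → ℝ} {f g ν : ℂ → E4}

/-- The simple roots are the conormals of the sides. -/
structure Nrm (κ : ℝ) (om : ℂ → ℝ) (g : ℂ → E4) : Prop where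
  n0 : root 0 = (1 : ℝ) • T (UU κ om) g I ⟨1, 0⟩
  n1 : root 1 = √2 • T (UU κ om) g 1 ⟨0, 1⟩
  n2 : root 2 = √2 • -T (UU κ om) g 1 ⟨1, 1⟩
  n3 : root 3 = (2 : ℝ) • -T (UU κ om) g I ⟨1, 1⟩

theorem refl_mem (i : Fin 4) : H77.refl i ∈ W := (rW i).2

theorem refl_refl (i : Fin 4) (x : E4) : H77.refl i (H77.refl i x) = x :=
  Submodule.reflection_reflection _ x

theorem cham_all (hF : FrameStmt) (O : Om κ om u) (S : SW κ om g ν) (hc : ContinuousOn g Sq)
    (N : Nrm κ om g) {w : ℂ} (hw : w ∈ Sq) (i : Fin 4) :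
    0 ≤ ⟪root i, g w⟫ ∧ (⟪root i, g w⟫ = 0 ↔ sd i w = 0) := by
  have c01 : (⟨0, 1⟩ : ℂ) ∈ Dw := mem_Dw (mk_mem (by simp) (by simp)) (ne_im one_pos)
  have c11 : (⟨1, 1⟩ : ℂ) ∈ Dw := mem_Dw (mk_mem (by simp) (by simp)) (ne_im one_pos)
  obtain ⟨a1, a2⟩ := cham_re hF O S hc hw
  obtain ⟨b1, b2⟩ := cham_re hF O (sw_swap O S) (cont_swap hc) (swp_mem hw)
  simp only [T_swap O S c01, T_swap O S c11, swp_one, swp_mk] at b1 b2
  have k : ∀ {c x : ℝ} {r n y : E4}, 0 < c → r = c • n → (0 ≤ ⟪n, y⟫ ∧ (⟪n, y⟫ = 0 ↔ x = 0)) →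
      0 ≤ ⟪r, y⟫ ∧ (⟪r, y⟫ = 0 ↔ x = 0) := by
    rintro c x r n y hc rfl h
    rw [real_inner_smul_left, mul_eq_zero, or_iff_right hc.ne']
    exact ⟨mul_nonneg hc.le h.1, h.2⟩
  fin_cases i
  exacts [k one_pos N.n0 b1, k (by positivity) N.n1 a1, k (by positivity) N.n2 a2,
    k two_pos N.n3 b2]

theorem refl_w (hF : FrameStmt) (hR : RigidStmt) (O : Om κ om u) (S : SW κ om g ν)
    (N : Nrm κ om g) {w : ℂ} (hw : w ∈ Sq) (h0 : w ≠ 0) (i : Fin 4) (hi : sd i w = 0) :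
    sr i w = w ∧ ∀ᶠ z in 𝓝 w, g (sr i z) = H77.refl i (g z) := by
  have hd := mem_Dw hw h0
  have hfix : sr i w = w := by
    fin_cases i <;> simp [sd] at hi <;> apply Complex.ext <;> simp [sr] <;> linarith
  obtain ⟨c, hc, hn⟩ : ∃ c : ℝ, c ≠ 0 ∧ root i = c • T (UU κ om) g (![I, 1, 1, I] i) w := by
    obtain ⟨s, t⟩ := w
    have h2 : √2 ≠ 0 := by positivity
    fin_cases i
    · obtain rfl : t = 0 := hi
      exact ⟨1, one_ne_zero, N.n0.trans (congrArg _ (T2_const hF O S hw.1 (Or.inl rfl) h0).symm)⟩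
    · obtain rfl : s = 0 := hi
      exact ⟨_, h2, N.n1.trans (congrArg _ (T1_const hF O S hw.2 (Or.inl rfl) h0).symm)⟩
    · obtain rfl : 1 = s := sub_eq_zero.1 hi
      refine ⟨-√2, neg_ne_zero.2 h2, N.n2.trans ?_⟩
      rw [smul_neg, neg_smul, ← T1_const hF O S hw.2 (Or.inr rfl) h0]
      rfl
    · obtain rfl : 1 = t := sub_eq_zero.1 hi
      refine ⟨-2, by norm_num, N.n3.trans ?_⟩
      rw [smul_neg, neg_smul, ← T2_const hF O S hw.1 (Or.inr rfl) h0]
      rfl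
  refine ⟨hfix, reflect hR S _ (v₀ := ![I, 1, 1, I] i) ?_ (fun v => ?_) (sr_eq i) hd hfix
    (fun z _ => by rw [UU, UU, O.sy]) (fun z => ?_)
    (refl_apply i hc ((norm_T S hd _).trans ?_) hn)⟩
  · fin_cases i <;> simp
  · fin_cases i <;> apply Complex.ext <;> simp [Complex.inner] <;> ring
  · fin_cases i <;> simp
  · fin_cases i <;> simp

theorem u_sym (O : Om κ om u) {ρ : ℂ → ℂ} (i : Fin 4) (h0 : ρ 0 = 0) (h1 : ∀ z, ‖ρ z‖ = ‖z‖)
    (h2 : ∀ z, ρ z ^ 2 = sr i (z ^ 2)) (h3 : ∀ w ∈ box (-2) 2, sr i w ∈ box (-2) 2) {z : ℂ}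
    (hz : z ∈ Dz) : u (ρ z) = u z := by
  rcases eq_or_ne z 0 with rfl | hz0
  · rw [h0]
  · have : ρ z ∈ Dz := by
      change ρ z ^ 2 ∈ box (-2) 2
      rw [h2]
      exact h3 _ hz
    rw [O.rel _ this (by rw [← norm_ne_zero_iff, h1, norm_ne_zero_iff]; exact hz0), O.rel _ hz hz0,
      h1, h2, O.sy]

theorem refl_z (hF : FrameStmt) (hR : RigidStmt) (O : Om κ om u) (S : SZ κ u f ν)
    (N : Nrm κ om fun w => f (rt w)) :
    (∀ᶠ z in 𝓝 0, f (sr 0 z) = H77.refl 0 (f z)) ∧ ∀ᶠ z in 𝓝 0, f (swp z) = H77.refl 1 (f z) := by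
  have h2 : √2 * √2 = 2 := Real.mul_self_sqrt zero_le_two
  constructor
  · have e : ∀ z, sr 0 z = (starRingEnd ℂ) z := fun z => rfl
    refine reflect hR S _ (a := 1) (b := 0) (v₀ := I) norm_one (fun v => ?_) (sr_eq 0) zero_Dz
      (by simp [e]) (fun z hz => u_sym O 0 (by simp [e]) (by simp [e]) (by simp [e])
        (fun w hw => ⟨hw.1, by simpa [e, neg_lt, lt_neg, and_comm] using hw.2⟩) hz)
      (by simp [e, map_ofNat])
      (refl_apply 0 one_ne_zero ((norm_T S zero_Dz _).trans norm_I)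
        (N.n0.trans (congrArg _ (T_zero_A hF O S).symm)))
    apply Complex.ext <;> simp [Complex.inner]
    ring
  · have e : ∀ z, swp z = I * (starRingEnd ℂ) z := fun z => (swp_eq z).trans (add_zero _)
    have e' : ∀ z, sr 1 z = -(starRingEnd ℂ) z := fun z => by simpa using sr_eq 1 z
    refine reflect hR S _ (a := I) (b := 0) (v₀ := v1) norm_I (fun v => ?_) swp_eq zero_Dz
      (by simp [e]) (fun z hz => u_sym O 1 (by simp [e]) (by simp [e]) (by simp [e, e', mul_pow])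
        (fun w hw => ⟨by simpa [e', neg_lt, lt_neg, and_comm] using hw.1,
          by simpa [e'] using hw.2⟩) hz)
      (by simp [e, map_ofNat, mul_pow])
      (refl_apply 1 (by positivity) ((norm_T S zero_Dz _).trans ?_)
        (N.n1.trans (congrArg _ (T_zero_B hF O S).symm)))
    · apply Complex.ext <;> simp [Complex.inner, v1, map_ofNat]
      · linear_combination (v.re - v.im) / 2 * h2
      · linear_combination (v.im - v.re) / 2 * h2
    · rw [Complex.norm_eq_sqrt_sq_add_sq, Real.sqrt_eq_one]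
      simp [v1]
      linear_combination h2 / 2

theorem fold_w {w : ℂ} (hw : w ∈ Sq)
    (h : ∀ i, sd i w = 0 → sr i w = w ∧ ∀ᶠ z in 𝓝 w, g (sr i z) = H77.refl i (g z)) :
    ∀ᶠ z in 𝓝 w, ∃ k ∈ W, ∃ w' ∈ Sq, g z = k (g w') := by
  have hsd : ∀ i, Continuous (sd i) := fun i => by
    fin_cases i
    exacts [continuous_im, continuous_re, continuous_const.sub continuous_re,
      continuous_const.sub continuous_im]
  have hsr : ∀ i, Continuous (sr i) := fun i => by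
    rw [funext (sr_eq i)]; fun_prop
  have h0 : ∀ i, 0 ≤ sd i w := fun i => by
    fin_cases i
    exacts [hw.2.1, hw.1.1, sub_nonneg.2 hw.1.2, sub_nonneg.2 hw.2.2]
  have step : ∀ (i : Fin 4) (P : ℂ → Prop), (∀ z, P z → P (sr i z)) →
      (∀ᶠ z in 𝓝 w, P z ∧ 0 ≤ sd i z → ∃ k ∈ W, ∃ w' ∈ Sq, g z = k (g w')) →
      ∀ᶠ z in 𝓝 w, P z → ∃ k ∈ W, ∃ w' ∈ Sq, g z = k (g w') := by
    intro i P hP hQ
    rcases (h0 i).eq_or_lt with e | e
    · obtain ⟨hfix, hr⟩ := h i e.symm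
      have t : Tendsto (sr i) (𝓝 w) (𝓝 w) := (hsr i).tendsto' _ _ hfix
      filter_upwards [hQ, t.eventually hQ, hr] with z h1 h2 h3 hz
      rcases le_total 0 (sd i z) with h4 | h4
      · exact h1 ⟨hz, h4⟩
      · obtain ⟨k, hk, w', hw', e'⟩ := h2 ⟨hP z hz, by
          have : sd i (sr i z) = -sd i z := by fin_cases i <;> simp [sd, sr] <;> ring
          linarith⟩
        refine ⟨H77.refl i * k, W.mul_mem (refl_mem i) hk, w', hw', ?_⟩
        change _ = H77.refl i (k (g w'))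
        rw [← e', h3, refl_refl]
    · filter_upwards [hQ, ((hsd i).tendsto w).eventually (lt_mem_nhds e)] with z h1 h2 hz
      exact h1 ⟨hz, h2.le⟩
  have step2 : ∀ (i j : Fin 4) (P : ℂ → Prop), (∀ z, P z → P (sr i z)) → (∀ z, P z → P (sr j z)) →
      (∀ z, sd i z + sd j z = 1) → (∀ z, sd i (sr j z) = 1 + sd j z) →
      (∀ z, sd j (sr i z) = 1 + sd i z) →
      (∀ᶠ z in 𝓝 w, (P z ∧ 0 ≤ sd i z) ∧ 0 ≤ sd j z → ∃ k ∈ W, ∃ w' ∈ Sq, g z = k (g w')) →
      ∀ᶠ z in 𝓝 w, P z → ∃ k ∈ W, ∃ w' ∈ Sq, g z = k (g w') := by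
    intro i j P hi hj e1 e2 e3 hQ
    rcases le_total (sd i w) (1 / 2) with e | e
    · have := step i (fun z => P z ∧ |sd i z| ≤ 1) (fun z hz => ⟨hi z hz.1, by
        have : sd i (sr i z) = -sd i z := by fin_cases i <;> simp [sd, sr] <;> ring
        rw [this, abs_neg]; exact hz.2⟩) (hQ.mono fun z hz h' =>
          hz ⟨⟨h'.1.1, h'.2⟩, by linarith [e1 z, (abs_le.1 h'.1.2).2]⟩)
      filter_upwards [this, ((hsd i).abs.tendsto w).eventually
        (gt_mem_nhds (a := 1) (by rw [abs_of_nonneg (h0 i)]; linarith))] with z h1 h2 hz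
      exact h1 ⟨hz, h2.le⟩
    · have := step j (fun z => P z ∧ |sd j z| ≤ 1) (fun z hz => ⟨hj z hz.1, by
        have : sd j (sr j z) = -sd j z := by fin_cases j <;> simp [sd, sr] <;> ring
        rw [this, abs_neg]; exact hz.2⟩) (hQ.mono fun z hz h' =>
          hz ⟨⟨h'.1.1, by linarith [e1 z, (abs_le.1 h'.1.2).2]⟩, h'.2⟩)
      filter_upwards [this, ((hsd j).abs.tendsto w).eventually
        (gt_mem_nhds (a := 1) (by rw [abs_of_nonneg (h0 j)]; linarith [e1 w]))] with z h1 h2 hz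
      exact h1 ⟨hz, h2.le⟩
  have s1 := step2 0 3 (fun z => (True ∧ 0 ≤ sd 1 z) ∧ 0 ≤ sd 2 z) (fun z hz => hz) (fun z hz => hz)
    (fun z => by simp [sd]) (fun z => by simp [sd, sr]; ring) (fun z => by simp [sd, sr])
    (Eventually.of_forall fun z hz => ⟨1, W.one_mem, z,
      ⟨⟨hz.1.1.1.2, sub_nonneg.1 hz.1.1.2⟩, hz.1.2, sub_nonneg.1 hz.2⟩, rfl⟩)
  exact (step2 1 2 (fun _ => True) (fun _ h => h) (fun _ h => h) (fun z => by simp [sd])
    (fun z => by simp [sd, sr]; ring) (fun z => by simp [sd, sr]) s1).mono fun z hz => hz trivial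

theorem fold_z (h0 : ∀ᶠ z in 𝓝 0, f (sr 0 z) = H77.refl 0 (f z))
    (h1 : ∀ᶠ z in 𝓝 0, f (swp z) = H77.refl 1 (f z)) :
    ∀ᶠ z in 𝓝 0, ∃ k ∈ W, ∃ w' ∈ Sq, f z = k (f (rt w')) := by
  obtain ⟨r, hr, hb⟩ := Metric.eventually_nhds_iff_ball.1
    (h0.and (h1.and (ball_mem_nhds (0 : ℂ) one_pos)))
  simp only [mem_ball_zero_iff, Complex.norm_eq_sqrt_sq_add_sq] at hb
  let Q : ℝ → ℝ → Prop := fun x y => √(x ^ 2 + y ^ 2) < r → ∃ k ∈ W, ∃ w' ∈ Sq,
    f ⟨x, y⟩ = k (f (rt w'))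
  have q0 : ∀ x y, Q x (-y) → Q x y := fun x y h hz => by
    obtain ⟨k, hk, w', hw', e⟩ := h (by rwa [neg_sq])
    refine ⟨H77.refl 0 * k, W.mul_mem (refl_mem 0) hk, w', hw', ?_⟩
    change _ = H77.refl 0 (k _)
    rw [← e, show f ⟨x, -y⟩ = _ from (hb ⟨x, y⟩ hz).1, refl_refl]
  have q1 : ∀ x y, Q y x → Q x y := fun x y h hz => by
    obtain ⟨k, hk, w', hw', e⟩ := h (by rwa [add_comm])
    refine ⟨H77.refl 1 * k, W.mul_mem (refl_mem 1) hk, w', hw', ?_⟩
    change _ = H77.refl 1 (k _)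
    rw [← e, show f ⟨y, x⟩ = _ from (hb ⟨x, y⟩ hz).2.1, refl_refl]
  have q2 : ∀ x y, 0 ≤ y → y ≤ x → Q x y := fun x y hy hx hz => by
    have h := (hb ⟨x, y⟩ hz).2.2
    rw [dist_zero_right, Complex.norm_eq_sqrt_sq_add_sq, Real.sqrt_lt' one_pos] at h
    refine ⟨1, W.one_mem, ⟨x, y⟩ ^ 2, ?_, ?_⟩
    · simp only [mem_Sq, sq, mul_re, mul_im] at h ⊢
      refine ⟨⟨?_, ?_⟩, ?_, ?_⟩ <;> nlinarith [sq_nonneg (x - y)]
    · rcases (hy.trans hx).eq_or_lt with rfl | h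
      · obtain rfl := le_antisymm hx hy
        rw [show (⟨0, 0⟩ : ℂ) = 0 from rfl, zero_pow two_ne_zero, rt_zero]
        rfl
      · rw [rt, sq_cpow_two_inv h]
        rfl
  have q3 : ∀ x y, 0 ≤ x → 0 ≤ y → Q x y := fun x y hx hy =>
    (le_total y x).elim (q2 x y hy) fun h => q1 x y (q2 y x hx h)
  have q4 : ∀ x y, 0 ≤ x → Q x y := fun x y hx =>
    (le_total 0 y).elim (q3 x y hx) fun h => q0 x y (q3 x (-y) hx (neg_nonneg.2 h))
  have q5 : ∀ x y, Q x y := fun x y =>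
    (le_total 0 x).elim (q4 x y) fun h => q1 x y (q0 y x (q1 y (-x) (q4 _ _ (neg_nonneg.2 h))))
  filter_upwards [ball_mem_nhds (0 : ℂ) hr] with z hz
  rw [mem_ball_zero_iff, Complex.norm_eq_sqrt_sq_add_sq] at hz
  exact q5 z.re z.im hz

theorem scale_tendsto (p : ℂ) (c : ℝ) : Tendsto (fun z : ℂ => p + c⁻¹ • z) (𝓝 0) (𝓝 p) :=
  Continuous.tendsto' (by fun_prop) _ _ (by simp)

theorem refl_chart {F : ℂ → E4} {p : ℂ} {c : ℝ} (hc : c ≠ 0) {ρ : ℂ → ℂ} (hρ : Continuous ρ)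
    (hp : ρ p = p) {R : E4 → E4} (h : ∀ᶠ z in 𝓝 p, F (ρ z) = R (F z)) :
    ∃ σ : ℂ → ℂ, Tendsto σ (𝓝 0) (𝓝 0) ∧
      ∀ᶠ z in 𝓝 0, F (p + c⁻¹ • σ z) = R (F (p + c⁻¹ • z)) := by
  refine ⟨fun z => c • (ρ (p + c⁻¹ • z) - p), Continuous.tendsto' (by fun_prop) _ _ (by simp [hp]),
    ((scale_tendsto p c).eventually h).mono fun z hz => ?_⟩
  rw [inv_smul_smul₀ hc, add_sub_cancel, hz]

theorem piece (hF : FrameStmt) (hR : RigidStmt) (O : Om κ om u) (S : SZ κ u f ν)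
    (N : Nrm κ om fun w => f (rt w)) : ∃ P : Pc, ∀ w ∈ Sq, w ≠ 0 →
      P.V w = 2 * Real.exp (-2 * om w) + 2 * κ * Real.exp (2 * om w) := by
  have S' := sw_of O S
  have hc := cont_g S
  have hl : ∀ w, Real.exp (UU κ om w) ^ 2 = κ * Real.exp (2 * om w) := fun w => by
    rw [exp_UU O, mul_pow, Real.sq_sqrt O.pos.le, ← Real.exp_nat_mul]; norm_num
  refine ⟨⟨fun w => f (rt w), fun w => Real.exp (UU κ om w),
    fun w => 2 * Real.exp (-2 * om w) + 2 * κ * Real.exp (2 * om w), hc, inj_sq hF O S' hc,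
    fun w hw => S.nf _ (rt_mem (Sq_sub hw)), fun w hw => cham_all hF O S' hc N hw,
    fun w hw h0 => ((S'.sf w (mem_Dw hw h0)).contDiffAt
      (isOpen_Dw.mem_nhds (mem_Dw hw h0))).of_le (by simp),
    fun w hw h0 => ⟨Real.exp_pos _, fun v => ?_⟩, ?_, ⟨6, fun w hw h0 => ?_⟩, fun w hw => ?_⟩,
    fun _ _ _ => rfl⟩
  · rw [df_eq (UU κ om), norm_smul, norm_T S' (mem_Dw hw h0), Real.norm_of_nonneg (Real.exp_pos _).le]
  · have : ContinuousOn om (Sq \ {0}) := O.sm.continuousOn.mono (sdiff_subset_sdiff_left Sq_sub)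
    fun_prop
  · have h1 := O.b2 w hw h0
    have h2 := O.b3 w hw h0
    have h3 := norm_pos_iff.2 h0
    have h4 : ‖w‖ ≤ 2 := (norm_le_abs_re_add_abs_im w).trans (by
      rw [abs_of_nonneg hw.1.1, abs_of_nonneg hw.2.1]; linarith [hw.1.2, hw.2.2])
    have h5 := O.pos
    rw [hl, abs_of_pos (by positivity), le_div_iff₀ h3, le_div_iff₀ h3]
    rw [le_div_iff₀ h3] at h2
    constructor
    · linarith
    · nlinarith [mul_le_mul h1 h4 h3.le (by norm_num)]
  · rcases eq_or_ne w 0 with rfl | h0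
    · obtain ⟨r0, r1⟩ := refl_z hF hR O S N
      have hp := (Real.exp_pos (u 0)).ne'
      refine ⟨_, _, by simpa only [rt_zero] using (chart_of hF S zero_Dz).1, fun U hU => ?_,
        fun i hi => ?_, (scale_tendsto 0 _).eventually (fold_z r0 r1), fun h => (h rfl).elim⟩
      · have t : Tendsto (fun w => Real.exp (u 0) • rt w) (𝓝[Sq] 0) (𝓝 0) := by
          have := ((cont_rt hw).tendsto.const_smul (Real.exp (u 0))).mono_left
            (nhdsWithin_le_nhds (s := Sq))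
          rwa [rt_zero, smul_zero] at this
        exact (t.eventually hU).mono fun w h => ⟨_, h, by simp only [inv_smul_smul₀ hp, zero_add]⟩
      · fin_cases i
        · exact refl_chart hp (by rw [funext (sr_eq 0)]; fun_prop) (by simp [sr]; rfl) r0
        · exact refl_chart hp continuous_swp rfl r1
        · simp [sd] at hi
        · simp [sd] at hi
    · have hd := mem_Dw hw h0
      have hp := (Real.exp_pos (UU κ om w)).ne'
      obtain ⟨c1, c2⟩ := chart_of hF S' hd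
      refine ⟨_, _, c1, fun U hU => ?_, fun i hi => ?_,
        (scale_tendsto w _).eventually 
          (fold_w (g := fun w => f (rt w)) hw (refl_w hF hR O S' N hw h0)),
        fun _ => ⟨EventuallyEq.rfl, ?_⟩⟩
      · have t : Tendsto (fun w' => Real.exp (UU κ om w) • (w' - w)) (𝓝[Sq] w) (𝓝 0) :=
          (Continuous.tendsto' (by fun_prop) _ _ (by simp)).mono_left nhdsWithin_le_nhds
        exact (t.eventually hU).mono fun w' h =>
          ⟨_, h, by simp only [inv_smul_smul₀ hp, add_sub_cancel]⟩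
      · obtain ⟨h1, h2⟩ := refl_w hF hR O S' N hw h0 i hi
        exact refl_chart (F := fun w => f (rt w)) hp (by rw [funext (sr_eq i)]; fun_prop) h1 h2
      · have e1 : Real.exp (-4 * UU κ om w) * Real.exp (UU κ om w) ^ 2 =
            Real.exp (-UU κ om w) ^ 2 := by
          rw [← Real.exp_nat_mul, ← Real.exp_nat_mul, ← Real.exp_add]; congr 1; push_cast; ring
        have e2 : Real.exp (-2 * om w) = (Real.exp (-UU κ om w) * √κ) ^ 2 := by
          rw [exp_neg_UU O, ← Real.exp_nat_mul]; congr 1; push_cast; ring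
        rw [c2, mul_assoc 2 κ, ← hl, e2, norm_real, Real.norm_of_nonneg (Real.sqrt_nonneg _)]
        linear_combination 2 * √κ ^ 2 * e1

theorem turn (hB : BonnetStmt) (hF : FrameStmt) (hR : RigidStmt) : TurnStmt := by
  intro κ om u O
  obtain ⟨f, ν, S⟩ := hB Dz u (fun z => 4 * (√κ : ℝ) * z ^ 2) isOpen_Dz zero_Dz star_Dz O.su
    (by fun_prop) fun z hz => by
      rw [O.gauss z hz, norm_mul, norm_mul, norm_pow, norm_real,
        Real.norm_of_nonneg (Real.sqrt_nonneg _), mul_pow, mul_pow, Real.sq_sqrt O.pos.le,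
        Complex.norm_ofNat]
      ring
  have S' := sw_of O S
  have c01 : (⟨0, 1⟩ : ℂ) ∈ Dw := mem_Dw (mk_mem (by simp) (by simp)) (ne_im one_pos)
  have c10 : (⟨1, 0⟩ : ℂ) ∈ Dw := mem_Dw (mk_mem (by simp) (by simp)) (ne_re one_pos)
  have c11 : (⟨1, 1⟩ : ℂ) ∈ Dw := mem_Dw (mk_mem (by simp) (by simp)) (ne_im one_pos)
  refine ⟨_, _, _, clos_line hF O S', fun s hs => ?_, fun hy => ?_⟩
  · have hw := mk_mem hs (right_mem_Icc.2 zero_le_one)
    refine ⟨le_trans (by norm_num) (turn_all hF O S' hw (ne_im one_pos)).1, ?_⟩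
    refine (real_inner_le_norm _ _).trans ?_
    rw [norm_T S' (mem_Dw hw (ne_im one_pos)), norm_T S' c01, norm_one, mul_one]
  have hy' := (clos_unique (clos_line hF O (sw_swap O S')) (clos_line hF O S')).trans hy
  simp only [T_swap O S' c01, T_swap O S' c11, swp_one, swp_mk] at hy'
  obtain ⟨Φ, n0, n1, n2, n3⟩ := exists_iso (A := T (UU κ om) (fun w => f (rt w)) I ⟨1, 0⟩)
    (B := T (UU κ om) (fun w => f (rt w)) 1 ⟨0, 1⟩) (C := -T (UU κ om) (fun w => f (rt w)) 1 ⟨1, 1⟩)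
    (D := -T (UU κ om) (fun w => f (rt w)) I ⟨1, 1⟩) ((norm_T S' c10 _).trans norm_I)
    ((norm_T S' c01 _).trans norm_one) ((norm_neg _).trans ((norm_T S' c11 _).trans norm_one))
    ((norm_neg _).trans ((norm_T S' c11 _).trans norm_I))
    (by rw [← T_zero_A hF O S, ← T_zero_B hF O S, inner_T S zero_Dz]; simp [Complex.inner, v1])
    (by
      rw [← T1_const hF O S' (t := 0) (by simp) (Or.inr rfl) (ne_re one_pos), inner_neg_right,
        inner_T S' c10]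
      simp [Complex.inner])
    (by rw [inner_neg_right, real_inner_comm, hy'])
    (by rw [inner_neg_right, real_inner_comm]; exact congrArg _ hy)
    (by
      rw [← T2_const hF O S' (s := 0) (by simp) (Or.inr rfl) (ne_im one_pos), inner_neg_right,
        inner_T S' c01]
      simp [Complex.inner])
    (by rw [inner_neg_neg, inner_T S' c11]; simp [Complex.inner])
  have S1 := surf_comp (H' := fun z => 4 * (√κ : ℝ) * z ^ 2) S Φ (fun z => z)
    (fun _ => ContinuousLinearMap.id ℝ ℂ) 1 abs_one isOpen_Dz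
    contDiffOn_id (fun _ h => h) (fun z _ => hasFDerivAt_id z) O.su (fun _ _ _ _ => rfl)
    fun _ _ _ => by simp
  have hT : ∀ v w, T (UU κ om) (fun w => Φ (f (rt w))) v w =
      Φ (T (UU κ om) (fun w => f (rt w)) v w) := fun v w => by
    rw [T, T, map_smul]
    exact congrArg _ (DFunLike.congr_fun (Φ.comp_fderiv (f := fun w => f (rt w)) (x := w)) v)
  exact piece hF hR O S1 ⟨by rw [hT, n0], by rw [hT, n1], by rw [hT, n2, map_neg],
    by rw [hT, n3, map_neg]⟩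

end Pool.Agent.MP_6b3e96_gt.H17
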